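import Pool.Agent.R165.Poly.Total

/-! The sums for the shifted setups. -/

set_option autoImplicit false

open MeasureTheory Metric Set
open scoped Real ENNReal

namespace Pool.Agent.R165.Poly

/-- sums of cosines over full periods -/
lemma sum_cos {n : ℕ} (hn : 3 ≤ n) (k : ℕ) {p : ℤ} (hp : ¬ (n : ℤ) ∣ p) (u : ℝ) :
    ∑ m ∈ Finset.range (k * n), Real.cos (2 * π * p * m / n + u) = 0 := by
  have hn0 : (n : ℂ) ≠ 0 := by
    have : n ≠ 0 := by omega
    exact_mod_cast this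
  set ζ : ℂ := Complex.exp (2 * π * p / n * Complex.I) with hζ
  have h1 : ζ ≠ 1 := by
    intro h
    rw [hζ, Complex.exp_eq_one_iff] at h
    obtain ⟨q, hq⟩ := h
    have h2 : (p : ℂ) = n * q := by
      have hpi : (π : ℂ) ≠ 0 := by exact_mod_cast Real.pi_ne_zero
      have h3 : (2 * π * Complex.I) * (p / n) = (2 * π * Complex.I) * q := by
        linear_combination hq
      have h4 := mul_left_cancel₀ (mul_ne_zero (mul_ne_zero two_ne_zero hpi) Complex.I_ne_zero) h3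
      rw [div_eq_iff hn0] at h4
      rw [h4]; ring
    have h3 : p = n * q := by exact_mod_cast h2
    exact hp ⟨q, h3⟩
  have h2 : ζ ^ (k * n) = 1 := by
    rw [hζ, ← Complex.exp_nat_mul, Complex.exp_eq_one_iff]
    refine ⟨k * p, ?_⟩
    push_cast
    field_simp
  have h3 : ∑ m ∈ Finset.range (k * n), ζ ^ m = 0 := by
    have := mul_neg_geom_sum ζ (k * n)
    rw [h2, sub_self] at this
    rcases mul_eq_zero.1 this with h | h
    · exact absurd (sub_eq_zero.1 h).symm h1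
    · exact h
  have h4 : ∀ m : ℕ, Real.cos (2 * π * p * m / n + u) =
      (Complex.exp (u * Complex.I) * ζ ^ m).re := by
    intro m
    rw [hζ, ← Complex.exp_nat_mul, ← Complex.exp_add]
    have : (u : ℂ) * Complex.I + m * (2 * π * p / n * Complex.I) =
        ((2 * π * p * m / n + u : ℝ) : ℂ) * Complex.I := by
      push_cast; ring
    rw [this, Complex.exp_ofReal_mul_I_re]
  simp_rw [h4]
  rw [← Complex.re_sum, ← Finset.mul_sum, h3, mul_zero, Complex.zero_re]

/-- the support numbers of a shifted setup; `κ` is an inverse of `k` modulo `n` -/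
noncomputable def hh (n : ℕ) (κ : ℤ) (ε : ℝ) (m : ℤ) : ℝ :=
  Real.cos (π / n) + ε * Real.cos ((2 * κ * m + 1) * π / n)

section

variable {k n : ℕ} {κ q : ℤ} {ε : ℝ} (hk : 1 ≤ k) (hn : 3 ≤ n) (hκ : κ * k = 1 + n * q)
include hn

lemma adm_hh (hε : 0 ≤ ε) : Adm k n ε (hh n κ ε) := by
  have hn0 : (n : ℝ) ≠ 0 := by
    have : n ≠ 0 := by omega
    exact_mod_cast this
  refine ⟨fun l => ?_, fun l => ?_⟩
  · unfold hh
    rw [add_sub_cancel_left, abs_mul, abs_of_nonneg hε]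
    exact mul_le_of_le_one_right hε (Real.abs_cos_le_one _)
  · unfold hh
    congr 2
    rw [← Real.cos_add_int_mul_two_pi ((2 * κ * l + 1) * π / n) (κ * k)]
    congr 1
    push_cast
    field_simp
    ring

include hκ

lemma not_dvd1 : ¬ (n : ℤ) ∣ κ := by
  intro h
  have h1 : (n : ℤ) ∣ 1 := by
    have h2 : (n : ℤ) ∣ κ * k := Dvd.dvd.mul_right h _
    rw [hκ] at h2
    exact (Int.dvd_add_left (Dvd.intro _ rfl)).1 h2
  have := Int.le_of_dvd one_pos h1
  omega

lemma not_dvd2 : ¬ (n : ℤ) ∣ 2 * κ := by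
  intro h
  have h1 : (n : ℤ) ∣ 2 := by
    have h2 : (n : ℤ) ∣ 2 * κ * k := Dvd.dvd.mul_right h _
    rw [mul_assoc, hκ, mul_add] at h2
    have h3 : (n : ℤ) ∣ 2 * (n * q) := ⟨2 * q, by ring⟩
    rw [mul_one] at h2
    exact (Int.dvd_add_left h3).1 h2
  have := Int.le_of_dvd two_pos h1
  omega

lemma hh_shift (m : ℤ) (a b : ℤ) : hh n κ ε (m + a - b * k) =
    Real.cos (π / n) + ε * Real.cos (2 * π * κ * m / n + (π / n + 2 * π * (κ * a - b) / n)) := by
  have hn0 : (n : ℝ) ≠ 0 := by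
    have : n ≠ 0 := by omega
    exact_mod_cast this
  have hκ' : (κ : ℝ) * k = 1 + n * q := by exact_mod_cast hκ
  unfold hh
  congr 2
  rw [← Real.cos_add_int_mul_two_pi ((2 * κ * ((m + a - b * k : ℤ) : ℝ) + 1) * π / n) (b * q)]
  congr 1
  push_cast
  field_simp
  linear_combination (-2 * b) * hκ'

/-- first moments -/
lemma sum_hh (u : ℝ) : ∑ m ∈ Finset.range (k * n),
    (Real.cos (π / n) + ε * Real.cos (2 * π * κ * m / n + u)) = k * n * Real.cos (π / n) := by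
  rw [Finset.sum_add_distrib, ← Finset.mul_sum, sum_cos hn k (not_dvd1 hn hκ)]
  simp

/-- second moments -/
lemma sum_hh_mul (u v : ℝ) : ∑ m ∈ Finset.range (k * n),
    (Real.cos (π / n) + ε * Real.cos (2 * π * κ * m / n + u)) *
      (Real.cos (π / n) + ε * Real.cos (2 * π * κ * m / n + v)) =
    k * n * (Real.cos (π / n) ^ 2 + ε ^ 2 / 2 * Real.cos (u - v)) := by
  have h1 : ∀ m : ℕ, (Real.cos (π / n) + ε * Real.cos (2 * π * κ * m / n + u)) *
      (Real.cos (π / n) + ε * Real.cos (2 * π * κ * m / n + v)) =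
      (Real.cos (π / n) ^ 2 + ε ^ 2 / 2 * Real.cos (u - v)) +
      (ε * Real.cos (π / n)) * Real.cos (2 * π * κ * m / n + u) +
      (ε * Real.cos (π / n)) * Real.cos (2 * π * κ * m / n + v) +
      (ε ^ 2 / 2) * Real.cos (2 * π * (2 * κ : ℤ) * m / n + (u + v)) := by
    intro m
    have h2 : Real.cos (2 * π * κ * m / n + u) * Real.cos (2 * π * κ * m / n + v) =
        (Real.cos (u - v) + Real.cos (2 * π * (2 * κ : ℤ) * m / n + (u + v))) / 2 := by
      have e1 : (2 * π * κ * m / n + u) - (2 * π * κ * m / n + v) = u - v := by ring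
      have e2 : (2 * π * κ * m / n + u) + (2 * π * κ * m / n + v) =
        2 * π * ((2 * κ : ℤ) : ℝ) * m / n + (u + v) := by push_cast; ring
      have prod : ∀ x y : ℝ, Real.cos x * Real.cos y = (Real.cos (x - y) + Real.cos (x + y)) / 2 := by
        intro x y; rw [Real.cos_sub, Real.cos_add]; ring
      rw [prod, e1, e2]
    linear_combination ε ^ 2 * h2
  simp_rw [h1]
  rw [Finset.sum_add_distrib, Finset.sum_add_distrib, Finset.sum_add_distrib, ← Finset.mul_sum,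
    ← Finset.mul_sum, ← Finset.mul_sum, sum_cos hn k (not_dvd1 hn hκ),
    sum_cos hn k (not_dvd1 hn hκ), sum_cos hn k (not_dvd2 hn hκ)]
  simp
  ring

end

lemma mul_xx {a b t : ℝ} (ha : a ≠ 0) : a * xx a b t = (a * Real.cos t - b) / Real.sin t := by
  unfold xx
  rw [mul_div_assoc', mul_div_mul_left _ _ ha]

/-- `T = tan (α/2) - tan (β/2)` -/
noncomputable def TT (k n : ℕ) : ℝ :=
  (1 - Real.cos (2 * k * dl k n)) / Real.sin (2 * k * dl k n) -
    (1 - Real.cos (2 * (k - 1) * dl k n)) / Real.sin (2 * (k - 1) * dl k n)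

/-- the periodic functions -/
noncomputable def GG (n : ℕ) (κ : ℤ) (ε u : ℝ) (m : ℕ) : ℝ :=
  Real.cos (π / n) + ε * Real.cos (2 * π * κ * m / n + u)

section

variable {k n : ℕ} {κ q : ℤ} {ε : ℝ} (hk : 1 ≤ k) (hn : 3 ≤ n) (hκ : κ * k = 1 + n * q)
include hk hn hκ

lemma GG_vals (m : ℕ) : hh n κ ε m = GG n κ ε (π / n + 2 * π * (κ * 0 - 0) / n) m ∧
    hh n κ ε (m + 1 - k) = GG n κ ε (π / n + 2 * π * (κ * 1 - 1) / n) m ∧
    hh n κ ε (m - k) = GG n κ ε (π / n + 2 * π * (κ * 0 - 1) / n) m ∧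
    hh n κ ε (m + 1) = GG n κ ε (π / n + 2 * π * (κ * 1 - 0) / n) m := by
  have s0 := hh_shift (ε := ε) hn hκ m 0 0
  have s1 := hh_shift (ε := ε) hn hκ m 1 1
  have s2 := hh_shift (ε := ε) hn hκ m 0 1
  have s3 := hh_shift (ε := ε) hn hκ m 1 0
  have e0 : (m : ℤ) + 0 - 0 * k = m := by ring
  have e1 : (m : ℤ) + 1 - 1 * k = m + 1 - k := by ring
  have e2 : (m : ℤ) + 0 - 1 * k = m - k := by ring
  have e3 : (m : ℤ) + 1 - 0 * k = m + 1 := by ring
  rw [e0] at s0
  rw [e1] at s1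
  rw [e2] at s2
  rw [e3] at s3
  push_cast at s0 s1 s2 s3
  exact ⟨s0, s1, s2, s3⟩

/-- **Perimeter.** -/
theorem perim_val (hs : Small k n ε) : (μH[1] (frontier (U k n (hh n κ ε)))).toReal =
      2 * k * n * Real.cos (π / n) * TT k n := by
  have ha := adm_hh (k := k) (κ := κ) hn hs.pos
  rw [perim_eq hk hn hs ha]
  have h1 : ∀ m ∈ Finset.range (k * n), (hh n κ ε m *
      (xx (hh n κ ε m) (hh n κ ε (m + 1 - k)) (2 * (k - 1) * dl k n) -
        xx (hh n κ ε m) (hh n κ ε (m - k)) (2 * k * dl k n)) +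
      hh n κ ε (m + 1 - k) * (-xx (hh n κ ε (m + 1 - k)) (hh n κ ε (m + 1)) (2 * k * dl k n) -
        -xx (hh n κ ε (m + 1 - k)) (hh n κ ε m) (2 * (k - 1) * dl k n))) =
      GG n κ ε (π / n + 2 * π * (κ * 0 - 0) / n) m *
        ((Real.cos (2 * (k - 1) * dl k n) - 1) / Real.sin (2 * (k - 1) * dl k n) -
          Real.cos (2 * k * dl k n) / Real.sin (2 * k * dl k n)) +
      GG n κ ε (π / n + 2 * π * (κ * 1 - 1) / n) m *
        ((Real.cos (2 * (k - 1) * dl k n) - 1) / Real.sin (2 * (k - 1) * dl k n) -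
          Real.cos (2 * k * dl k n) / Real.sin (2 * k * dl k n)) +
      GG n κ ε (π / n + 2 * π * (κ * 0 - 1) / n) m * (1 / Real.sin (2 * k * dl k n)) +
      GG n κ ε (π / n + 2 * π * (κ * 1 - 0) / n) m * (1 / Real.sin (2 * k * dl k n)) := by
    intro m _
    have p0 := (ha.pos hs m).ne'
    have p1 := (ha.pos hs (m + 1 - k)).ne'
    obtain ⟨s0, s1, s2, s3⟩ := GG_vals (ε := ε) hk hn hκ m
    have f1 := mul_xx (b := hh n κ ε (m + 1 - k)) (t := 2 * (k - 1) * dl k n) p0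
    have f2 := mul_xx (b := hh n κ ε (m - k)) (t := 2 * k * dl k n) p0
    have f3 := mul_xx (b := hh n κ ε (m + 1)) (t := 2 * k * dl k n) p1
    have f4 := mul_xx (b := hh n κ ε m) (t := 2 * (k - 1) * dl k n) p1
    rw [← s0, ← s1, ← s2, ← s3]
    linear_combination f1 - f2 - f3 + f4
  have z : ∀ u : ℝ, ∑ m ∈ Finset.range (k * n), GG n κ ε u m = k * n * Real.cos (π / n) :=
    fun u => sum_hh hn hκ u
  rw [Finset.sum_congr rfl h1]
  simp only [Finset.sum_add_distrib, ← Finset.sum_mul, z]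
  unfold TT
  ring

/-- **Area.** -/
theorem area_val (hs : Small k n ε) : (volume (U k n (hh n κ ε))).toReal =
      k * n * Real.cos (π / n) ^ 2 * TT k n - k * n * ε ^ 2 / 2 *
        ((Real.cos (2 * π * (κ - 1) / n) - Real.cos (2 * (k - 1) * dl k n)) /
          Real.sin (2 * (k - 1) * dl k n)) := by
  have ha := adm_hh (k := k) (κ := κ) hn hs.pos
  rw [area_eq hk hn hs ha]
  have h1 : ∀ m ∈ Finset.range (k * n), ((hh n κ ε m) ^ 2 / 2 *
      (xx (hh n κ ε m) (hh n κ ε (m + 1 - k)) (2 * (k - 1) * dl k n) -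
        xx (hh n κ ε m) (hh n κ ε (m - k)) (2 * k * dl k n)) +
      (hh n κ ε (m + 1 - k)) ^ 2 / 2 *
        (-xx (hh n κ ε (m + 1 - k)) (hh n κ ε (m + 1)) (2 * k * dl k n) -
        -xx (hh n κ ε (m + 1 - k)) (hh n κ ε m) (2 * (k - 1) * dl k n))) =
      (GG n κ ε (π / n + 2 * π * (κ * 0 - 0) / n) m *
        GG n κ ε (π / n + 2 * π * (κ * 0 - 0) / n) m) *
        ((Real.cos (2 * (k - 1) * dl k n) / Real.sin (2 * (k - 1) * dl k n) -
          Real.cos (2 * k * dl k n) / Real.sin (2 * k * dl k n)) / 2) +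
      (GG n κ ε (π / n + 2 * π * (κ * 1 - 1) / n) m *
        GG n κ ε (π / n + 2 * π * (κ * 1 - 1) / n) m) *
        ((Real.cos (2 * (k - 1) * dl k n) / Real.sin (2 * (k - 1) * dl k n) -
          Real.cos (2 * k * dl k n) / Real.sin (2 * k * dl k n)) / 2) +
      (GG n κ ε (π / n + 2 * π * (κ * 0 - 0) / n) m *
        GG n κ ε (π / n + 2 * π * (κ * 1 - 1) / n) m) *
        (-1 / Real.sin (2 * (k - 1) * dl k n)) +
      (GG n κ ε (π / n + 2 * π * (κ * 0 - 0) / n) m *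
        GG n κ ε (π / n + 2 * π * (κ * 0 - 1) / n) m) * (1 / Real.sin (2 * k * dl k n) / 2) +
      (GG n κ ε (π / n + 2 * π * (κ * 1 - 1) / n) m *
        GG n κ ε (π / n + 2 * π * (κ * 1 - 0) / n) m) * (1 / Real.sin (2 * k * dl k n) / 2) := by
    intro m _
    have p0 := (ha.pos hs m).ne'
    have p1 := (ha.pos hs (m + 1 - k)).ne'
    obtain ⟨s0, s1, s2, s3⟩ := GG_vals (ε := ε) hk hn hκ m
    have f1 := mul_xx (b := hh n κ ε (m + 1 - k)) (t := 2 * (k - 1) * dl k n) p0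
    have f2 := mul_xx (b := hh n κ ε (m - k)) (t := 2 * k * dl k n) p0
    have f3 := mul_xx (b := hh n κ ε (m + 1)) (t := 2 * k * dl k n) p1
    have f4 := mul_xx (b := hh n κ ε m) (t := 2 * (k - 1) * dl k n) p1
    rw [← s0, ← s1, ← s2, ← s3]
    linear_combination hh n κ ε m / 2 * (f1 - f2) + hh n κ ε (m + 1 - k) / 2 * (f4 - f3)
  have z : ∀ u v : ℝ, ∑ m ∈ Finset.range (k * n), GG n κ ε u m * GG n κ ε v m =
      k * n * (Real.cos (π / n) ^ 2 + ε ^ 2 / 2 * Real.cos (u - v)) :=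
    fun u v => sum_hh_mul hn hκ u v
  rw [Finset.sum_congr rfl h1]
  simp only [Finset.sum_add_distrib, ← Finset.sum_mul, z]
  have hkd := k_dl hk hn
  have c0 : ∀ x : ℝ, x - x = 0 := fun x => sub_self x
  have c1 : (π / n + 2 * π * (κ * 0 - 0) / n : ℝ) - (π / n + 2 * π * (κ * 1 - 1) / n) =
      -(2 * π * (κ - 1) / n) := by ring
  have c2 : (π / n + 2 * π * (κ * 0 - 0) / n : ℝ) - (π / n + 2 * π * (κ * 0 - 1) / n) =
      2 * k * dl k n := by
    have : 2 * k * dl k n = 2 * (π / n) := by rw [mul_assoc, hkd]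
    rw [this]; ring
  have c3 : (π / n + 2 * π * (κ * 1 - 1) / n : ℝ) - (π / n + 2 * π * (κ * 1 - 0) / n) =
      -(2 * k * dl k n) := by
    have : 2 * k * dl k n = 2 * (π / n) := by rw [mul_assoc, hkd]
    rw [this]; ring
  rw [c0, c0, c1, c2, c3, Real.cos_neg, Real.cos_neg, Real.cos_zero]
  have hsa := (sin_al hk hn hs).ne'
  unfold TT
  ring

end

end Pool.Agent.R165.Poly
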