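import Pool.Agent.R165.Poly.Calc

/-! Smallness, signs, the regular polygon and the canonical form. -/

set_option autoImplicit false

open MeasureTheory Metric Set
open scoped Real ENNReal

namespace Pool.Agent.R165.Poly

/-! ### Small perturbations -/

lemma cr_self {r t : ℝ} (hr : 0 < r) (ht0 : 0 < t) (htpi : t < π) : cr r r t = -(t / 2) := by
  unfold cr
  have hs : 0 < Real.sin (t / 2) := Real.sin_pos_of_pos_of_lt_pi (by linarith) (by linarith)
  have hc : 0 < Real.cos (t / 2) := Real.cos_pos_of_mem_Ioo ⟨by linarith, by linarith⟩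
  have e : (r * Real.cos t - r) / (r * Real.sin t) = Real.tan (-(t / 2)) := by
    have e1 : Real.cos t = 1 - 2 * Real.sin (t / 2) ^ 2 := by
      have := Real.cos_two_mul (t / 2)
      rw [mul_div_cancel₀ t two_ne_zero] at this
      have h2 := Real.sin_sq_add_cos_sq (t / 2)
      linarith
    have e2 : Real.sin t = 2 * Real.sin (t / 2) * Real.cos (t / 2) := by
      have := Real.sin_two_mul (t / 2)
      rwa [mul_div_cancel₀ t two_ne_zero] at this
    rw [Real.tan_neg, Real.tan_eq_sin_div_cos, e1, e2]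
    field_simp
    ring
  rw [e, Real.arctan_tan (by linarith) (by linarith)]

lemma cr_cont {r t : ℝ} (hr : 0 < r) (ht0 : 0 < t) (htpi : t < π) {η : ℝ} (hη : 0 < η) :
    ∃ e > 0, ∀ a b, |a - r| ≤ e → |b - r| ≤ e → |cr a b t + t / 2| < η := by
  have hs : 0 < Real.sin t := Real.sin_pos_of_pos_of_lt_pi ht0 htpi
  have hcont : ContinuousAt (fun p : ℝ × ℝ => cr p.1 p.2 t) (r, r) := by
    unfold cr
    refine Real.continuous_arctan.continuousAt.comp ?_
    refine ContinuousAt.div (by fun_prop) (by fun_prop) ?_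
    simp only
    positivity
  obtain ⟨d, hd, h⟩ := Metric.continuousAt_iff.1 hcont η hη
  refine ⟨d / 2, by positivity, fun a b ha hb => ?_⟩
  have h1 := h (x := (a, b)) (by
    rw [Prod.dist_eq, max_lt_iff]
    constructor
    · simp only [Real.dist_eq]; linarith
    · simp only [Real.dist_eq]; linarith)
  simp only [Real.dist_eq, cr_self hr ht0 htpi] at h1
  have e : cr a b t + t / 2 = cr a b t - -(t / 2) := by ring
  rw [e]; exact h1

lemma lin_small {r K1 K2 ε : ℝ} (hK : K1 < K2) (hK2 : K2 ≤ 1) (hε0 : 0 ≤ ε)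
    (hε : ε ≤ r * (K2 - K1) / 2) : (r + ε) * K1 ≤ (r - ε) * K2 := by
  nlinarith [mul_le_mul_of_nonneg_left (by linarith : K1 + K2 ≤ 2) hε0]

lemma exists_small {k n : ℕ} (hk : 1 ≤ k) (hn : 3 ≤ n) :
    ∃ ε₀ > 0, ∀ ε, 0 ≤ ε → ε < ε₀ → Small k n ε := by
  have hd := dl_pos hk hn
  have hkd := k_dl hk hn
  have hpi := Real.pi_pos
  have hk1 : (1 : ℝ) ≤ k := by exact_mod_cast hk
  have hn3 : (3 : ℝ) ≤ n := by exact_mod_cast hn
  have hdK : dl k n ≤ k * dl k n := le_mul_of_one_le_left hd.le hk1
  have hpn : π / n ≤ π / 3 := div_le_div_of_nonneg_left hpi.le (by norm_num) hn3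
  have hpn0 : 0 < π / n := by positivity
  have hr : 0 < Real.cos (π / n) := Real.cos_pos_of_mem_Ioo ⟨by linarith, by linarith⟩
  have hA : Real.cos (3 * (π / n) - 5 / 4 * dl k n) < Real.cos (π / n + dl k n / 4) :=
    Real.cos_lt_cos_of_nonneg_of_le_pi (by linarith) (by linarith) (by linarith)
  obtain ⟨e3, he3, h3⟩ := cr_cont hr (t := 2 * k * dl k n) (by positivity) (by linarith)
    (η := dl k n / 4) (by positivity)
  have h3' : ∀ a b, |a - Real.cos (π / n)| ≤ e3 → |b - Real.cos (π / n)| ≤ e3 →
      |cr a b (2 * k * dl k n) + k * dl k n| < dl k n / 4 := by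
    intro a b ha hb
    have := h3 a b ha hb
    have e : 2 * k * dl k n / 2 = k * dl k n := by ring
    rwa [e] at this
  by_cases hk2 : 2 ≤ k
  · have hk2' : (2 : ℝ) ≤ k := by exact_mod_cast hk2
    have hk2d : 2 * dl k n ≤ k * dl k n := mul_le_mul_of_nonneg_right hk2' hd.le
    have hB : Real.cos ((k - 5 / 4) * dl k n) < Real.cos ((k - 7 / 4) * dl k n) := by
      apply Real.cos_lt_cos_of_nonneg_of_le_pi
      · have : (0 : ℝ) ≤ k - 7 / 4 := by linarith
        positivity
      · linarith
      · linarith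
    have hk1' : (0 : ℝ) < k - 1 := by linarith
    obtain ⟨e4, he4, h4⟩ := cr_cont hr (t := 2 * (k - 1) * dl k n) (by positivity)
      (by linarith) (η := dl k n / 4) (by positivity)
    refine ⟨min (min (Real.cos (π / n)) (Real.cos (π / n) *
      (Real.cos (π / n + dl k n / 4) - Real.cos (3 * (π / n) - 5 / 4 * dl k n)) / 2))
      (min (Real.cos (π / n) *
      (Real.cos ((k - 7 / 4) * dl k n) - Real.cos ((k - 5 / 4) * dl k n)) / 2) (min e3 e4)),
      ?_, fun ε hε0 hε => ?_⟩
    · refine lt_min (lt_min hr ?_) (lt_min ?_ (lt_min he3 he4))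
      · have : 0 < Real.cos (π / n + dl k n / 4) - Real.cos (3 * (π / n) - 5 / 4 * dl k n) := by
          linarith
        positivity
      · have : 0 < Real.cos ((k - 7 / 4) * dl k n) - Real.cos ((k - 5 / 4) * dl k n) := by
          linarith
        positivity
    · rw [lt_min_iff, lt_min_iff, lt_min_iff, lt_min_iff] at hε
      obtain ⟨⟨g1, g2⟩, g3, g4, g5⟩ := hε
      refine ⟨hε0, g1, lin_small hA (Real.cos_le_one _) hε0 g2.le,
        fun _ => lin_small hB (Real.cos_le_one _) hε0 g3.le,
        fun a b ha hb => h3' a b (ha.trans g4.le) (hb.trans g4.le), fun _ a b ha hb => ?_⟩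
      have := h4 a b (ha.trans g5.le) (hb.trans g5.le)
      have e : 2 * (k - 1) * dl k n / 2 = (k - 1) * dl k n := by ring
      rwa [e] at this
  · refine ⟨min (min (Real.cos (π / n)) (Real.cos (π / n) *
      (Real.cos (π / n + dl k n / 4) - Real.cos (3 * (π / n) - 5 / 4 * dl k n)) / 2)) e3,
      ?_, fun ε hε0 hε => ?_⟩
    · refine lt_min (lt_min hr ?_) he3
      have : 0 < Real.cos (π / n + dl k n / 4) - Real.cos (3 * (π / n) - 5 / 4 * dl k n) := by
        linarith
      positivity
    · rw [lt_min_iff, lt_min_iff] at hε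
      obtain ⟨⟨g1, g2⟩, g3⟩ := hε
      exact ⟨hε0, g1, lin_small hA (Real.cos_le_one _) hε0 g2.le, fun h => absurd h hk2,
        fun a b ha hb => h3' a b (ha.trans g3.le) (hb.trans g3.le), fun h => absurd h hk2⟩

/-! ### Signs -/

lemma cos_le_of_mem {x a : ℝ} (ha0 : 0 ≤ a) (h1 : a ≤ x) (h2 : x ≤ 2 * π - a) :
    Real.cos x ≤ Real.cos a := by
  rcases le_total x π with h | h
  · exact Real.cos_le_cos_of_nonneg_of_le_pi ha0 h h1
  · rw [← Real.cos_neg x, ← Real.cos_add_two_pi (-x)]
    exact Real.cos_le_cos_of_nonneg_of_le_pi ha0 (by linarith) (by linarith)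

lemma cos_multiple {n : ℕ} (hn : 3 ≤ n) {p : ℤ} (hp : ¬ (n : ℤ) ∣ p) :
    Real.cos (2 * π * p / n) ≤ Real.cos (2 * (π / n)) := by
  have hnz : (0 : ℤ) < n := by exact_mod_cast (by omega : 0 < n)
  have hn0 : (0 : ℝ) < n := by exact_mod_cast hnz
  have hpi := Real.pi_pos
  have h0 := Int.emod_nonneg p hnz.ne'
  have h1 := Int.emod_lt_of_pos p hnz
  have h2 : p % n ≠ 0 := fun h => hp (Int.dvd_of_emod_eq_zero h)
  have h3 := Int.emod_add_mul_ediv p n
  have e : 2 * π * p / n = 2 * π * (p % n : ℤ) / n + (p / n : ℤ) * (2 * π) := by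
    have : (p : ℝ) = (p % n : ℤ) + n * (p / n : ℤ) := by exact_mod_cast h3.symm
    rw [this]; field_simp
  rw [e, Real.cos_add_int_mul_two_pi]
  have h4 : (1 : ℝ) ≤ (p % n : ℤ) := by
    have : (1 : ℤ) ≤ p % n := by omega
    exact_mod_cast this
  have h5 : ((p % n : ℤ) : ℝ) ≤ n - 1 := by
    have : p % n ≤ n - 1 := by omega
    exact_mod_cast this
  apply cos_le_of_mem (by positivity)
  · rw [mul_div_assoc', div_le_div_iff_of_pos_right hn0]; nlinarith
  · rw [div_le_iff₀ hn0]
    have : (2 * π - 2 * (π / n)) * n = 2 * π * (n - 1) := by field_simp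
    rw [this]
    exact mul_le_mul_of_nonneg_left h5 (by positivity)

lemma sign_iff {k n : ℕ} {κ q : ℤ} (hk : 1 ≤ k) (hn : 3 ≤ n) (hκ : κ * k = 1 + n * q) :
    0 < (Real.cos (2 * π * (κ - 1) / n) - Real.cos (2 * (k - 1) * dl k n)) /
          Real.sin (2 * (k - 1) * dl k n) ↔ 1 < k ∧ k ≡ 1 [MOD n] := by
  have hd := dl_pos hk hn
  have hkd := k_dl hk hn
  have hpi := Real.pi_pos
  have hk1 : (1 : ℝ) ≤ k := by exact_mod_cast hk
  have hn3 : (3 : ℝ) ≤ n := by exact_mod_cast hn
  have hdK : dl k n ≤ k * dl k n := le_mul_of_one_le_left hd.le hk1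
  have hpn : π / n ≤ π / 3 := div_le_div_of_nonneg_left hpi.le (by norm_num) hn3
  have hmod : k ≡ 1 [MOD n] ↔ (n : ℤ) ∣ κ - 1 := by
    rw [Nat.modEq_iff_dvd]
    push_cast
    constructor
    · rintro ⟨t, ht⟩
      refine ⟨q + κ * t, ?_⟩
      linear_combination hκ + κ * ht
    · rintro ⟨t, ht⟩
      refine ⟨t * k - q, ?_⟩
      linear_combination k * ht - hκ
  rw [hmod]
  rcases Nat.lt_or_ge 1 k with h1k | h1k
  · have hk2' : (2 : ℝ) ≤ k := by exact_mod_cast h1k
    have hsb : 0 < Real.sin (2 * (k - 1) * dl k n) := by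
      apply Real.sin_pos_of_pos_of_lt_pi
      · have : (0 : ℝ) < k - 1 := by linarith
        positivity
      · linarith
    rw [div_pos_iff_of_pos_right hsb]
    constructor
    · intro h
      refine ⟨h1k, ?_⟩
      by_contra hnd
      have h2 := cos_multiple hn hnd
      push_cast at h2
      have h3 : Real.cos (2 * (π / n)) < Real.cos (2 * (k - 1) * dl k n) := by
        apply Real.cos_lt_cos_of_nonneg_of_le_pi
        · have : (0 : ℝ) ≤ k - 1 := by linarith
          positivity
        · linarith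
        · linarith
      linarith
    · rintro ⟨_, t, ht⟩
      have h2 : Real.cos (2 * π * (κ - 1) / n) = 1 := by
        have h3 : (κ : ℝ) - 1 = n * t := by exact_mod_cast ht
        have : 2 * π * (κ - 1) / n = t * (2 * π) := by
          rw [h3]; field_simp
        rw [this, Real.cos_int_mul_two_pi]
      rw [h2]
      have h4 : Real.cos (2 * (k - 1) * dl k n) < Real.cos 0 := by
        apply Real.cos_lt_cos_of_nonneg_of_le_pi le_rfl
        · linarith
        · have : (0 : ℝ) < k - 1 := by linarith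
          positivity
      rw [Real.cos_zero] at h4
      linarith
  · have hk1 : k = 1 := by omega
    subst hk1
    simp

/-! ### Regular polygons -/

/-- The vertex set of the regular `n`-gon centred at `0` that has `z` as a vertex. -/
def regVertices (n : ℕ) (z : ℂ) : Set ℂ :=
  {w | ∃ j : ℤ, w = z * Complex.exp (2 * π * j / n * Complex.I)}

lemma zero_mem_conv {n : ℕ} (hn : 3 ≤ n) : (0 : ℂ) ∈ convexHull ℝ (regVertices n 1) := by
  have hn0 : (0 : ℝ) < n := by exact_mod_cast (by omega : 0 < n)
  have h1 : ∑ j ∈ Finset.range n, (1 / (n : ℝ)) • Complex.exp (2 * π * (j : ℤ) / n * Complex.I) ∈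
      convexHull ℝ (regVertices n 1) := by
    refine (convex_convexHull ℝ _).sum_mem (fun _ _ => by positivity) ?_ fun j _ => ?_
    · simp; field_simp
    · exact subset_convexHull ℝ _ ⟨j, by ring⟩
  rw [← Finset.smul_sum] at h1
  have h2 : ∑ j ∈ Finset.range n, Complex.exp (2 * π * (j : ℤ) / n * Complex.I) = 0 := by
    have hnd : ¬ (n : ℤ) ∣ 1 := by
      intro h; have := Int.le_of_dvd one_pos h; omega
    have h3 := sum_cos hn 1 hnd 0
    have h4 := sum_cos hn 1 hnd (-(π / 2))
    rw [one_mul] at h3 h4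
    apply Complex.ext
    · rw [Complex.re_sum, Complex.zero_re, ← h3]
      refine Finset.sum_congr rfl fun j _ => ?_
      have : (2 * π * (j : ℤ) / n * Complex.I : ℂ) =
        ((2 * π * (1 : ℤ) * j / n + 0 : ℝ) : ℂ) * Complex.I := by push_cast; ring
      rw [this, Complex.exp_ofReal_mul_I_re]
    · rw [Complex.im_sum, Complex.zero_im, ← h4]
      refine Finset.sum_congr rfl fun j _ => ?_
      have : (2 * π * (j : ℤ) / n * Complex.I : ℂ) =
        ((2 * π * (1 : ℤ) * j / n : ℝ) : ℂ) * Complex.I := by push_cast; ring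
      rw [this, Complex.exp_ofReal_mul_I_im]
      rw [← sub_eq_add_neg, Real.cos_sub_pi_div_two]
  rwa [h2, smul_zero] at h1

lemma mem_conv {n : ℕ} (hn : 3 ≤ n) (x : ℂ) : x ∈ convexHull ℝ (regVertices n 1) ↔
    ∀ i : ℤ, (x * Complex.exp (-((2 * i + 1) * π / n : ℝ) * Complex.I)).re ≤
      Real.cos (π / n) := by
  have hnz : (0 : ℤ) < n := by exact_mod_cast (by omega : 0 < n)
  have hn0 : (0 : ℝ) < n := by exact_mod_cast hnz
  have hpi := Real.pi_pos
  have hn3 : (3 : ℝ) ≤ n := by exact_mod_cast hn
  have hpn : π / n ≤ π / 3 := div_le_div_of_nonneg_left hpi.le (by norm_num) hn3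
  have hpn0 : 0 < π / n := by positivity
  constructor
  · intro hx i
    have hconv : Convex ℝ {x : ℂ | (x * Complex.exp (-((2 * i + 1) * π / n : ℝ) *
        Complex.I)).re ≤ Real.cos (π / n)} := by
      refine convex_halfSpace_le ?_ _
      refine IsLinearMap.mk (fun x y => ?_) fun c x => ?_
      · rw [add_mul, Complex.add_re]
      · rw [Complex.real_smul, mul_assoc, Complex.re_ofReal_mul, smul_eq_mul]
    refine convexHull_min ?_ hconv hx
    rintro _ ⟨j, rfl⟩
    simp only [mem_setOf_eq, one_mul]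
    have h1 : ((2 * π * j / n * Complex.I : ℂ)) = ((2 * π * j / n : ℝ) : ℂ) * Complex.I := by
      push_cast; ring
    have h2 := re_exp 1 (2 * π * j / n) ((2 * i + 1) * π / n)
    rw [Complex.ofReal_one, one_mul, one_mul] at h2
    rw [h1, h2]
    -- cosine of an odd multiple of `π / n`
    obtain ⟨p, hp⟩ : ∃ p : ℤ, p = j - i - 1 := ⟨_, rfl⟩
    have h3 : 2 * π * j / n - (2 * i + 1) * π / n = (2 * p + 1) * (π / n) := by
      rw [hp]; push_cast; ring
    rw [h3]
    have g0 := Int.emod_nonneg p hnz.ne'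
    have g1 := Int.emod_lt_of_pos p hnz
    have g3 := Int.emod_add_mul_ediv p n
    have e : (2 * p + 1) * (π / n) = (2 * ((p % n : ℤ) : ℝ) + 1) * (π / n) +
        ((p / n : ℤ) : ℝ) * (2 * π) := by
      have : (p : ℝ) = ((p % n : ℤ) : ℝ) + n * ((p / n : ℤ) : ℝ) := by exact_mod_cast g3.symm
      rw [this]
      generalize ((p % n : ℤ) : ℝ) = A
      generalize ((p / n : ℤ) : ℝ) = B
      field_simp
      ring
    rw [e, Real.cos_add_int_mul_two_pi]
    have h4 : (0 : ℝ) ≤ ((p % n : ℤ) : ℝ) := by exact_mod_cast g0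
    have h5 : ((p % n : ℤ) : ℝ) ≤ n - 1 := by
      have : p % n ≤ n - 1 := by omega
      exact_mod_cast this
    have h6 : n * (π / n) = π := by field_simp
    apply cos_le_of_mem hpn0.le
    · nlinarith
    · nlinarith
  · intro hx
    by_cases hx0 : x = 0
    · rw [hx0]; exact zero_mem_conv hn
    · obtain ⟨i, hi⟩ : ∃ i : ℤ, i = ⌊Complex.arg x * n / (2 * π)⌋ := ⟨_, rfl⟩
      have h1 := Int.floor_le (Complex.arg x * n / (2 * π))
      have h2 := Int.lt_floor_add_one (Complex.arg x * n / (2 * π))
      rw [← hi] at h1 h2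
      rw [le_div_iff₀ (by positivity)] at h1
      rw [div_lt_iff₀ (by positivity)] at h2
      obtain ⟨y, hy⟩ : ∃ y, y = Complex.arg x - (2 * i + 1) * π / n := ⟨_, rfl⟩
      have hy1 : -(π / n) ≤ y := by
        rw [hy]
        have : (i : ℝ) * (2 * π) / n ≤ Complex.arg x := by rw [div_le_iff₀ hn0]; exact h1
        have e : (2 * (i : ℝ) + 1) * π / n = i * (2 * π) / n + π / n := by ring
        rw [e]; linarith
      have hy2 : y < π / n := by
        rw [hy]
        have : Complex.arg x < ((i : ℝ) + 1) * (2 * π) / n := by rw [lt_div_iff₀ hn0]; exact h2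
        have e : (2 * (i : ℝ) + 1) * π / n = (i + 1) * (2 * π) / n - π / n := by ring
        rw [e]; linarith
      have hs := hx i
      have hxp : x = ((‖x‖ : ℝ) : ℂ) * Complex.exp ((Complex.arg x : ℝ) * Complex.I) :=
        (Complex.norm_mul_exp_arg_mul_I x).symm
      have hs' : ‖x‖ * Real.cos y ≤ Real.cos (π / n) := by
        rw [hy, ← re_exp, ← hxp]
        exact hs
      have hsn : 0 < Real.sin (π / n) := Real.sin_pos_of_pos_of_lt_pi hpn0 (by linarith)
      have hcn : 0 < Real.cos (π / n) := Real.cos_pos_of_mem_Ioo ⟨by linarith, by linarith⟩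
      obtain ⟨A, hA⟩ : ∃ A, A = ‖x‖ * Real.sin (π / n - y) / (2 * Real.sin (π / n) *
        Real.cos (π / n)) := ⟨_, rfl⟩
      obtain ⟨B, hB⟩ : ∃ B, B = ‖x‖ * Real.sin (π / n + y) / (2 * Real.sin (π / n) *
        Real.cos (π / n)) := ⟨_, rfl⟩
      have hA0 : 0 ≤ A := by
        have : 0 ≤ Real.sin (π / n - y) :=
          Real.sin_nonneg_of_nonneg_of_le_pi (by linarith) (by linarith)
        rw [hA]; positivity
      have hB0 : 0 ≤ B := by
        have : 0 ≤ Real.sin (π / n + y) :=
          Real.sin_nonneg_of_nonneg_of_le_pi (by linarith) (by linarith)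
        rw [hB]; positivity
      have hsum : (A + B) * Real.cos (π / n) = ‖x‖ * Real.cos y := by
        rw [hA, hB, Real.sin_sub, Real.sin_add]; field_simp; ring
      have hdif : (B - A) * Real.sin (π / n) = ‖x‖ * Real.sin y := by
        rw [hA, hB, Real.sin_sub, Real.sin_add]; field_simp; ring
      have hAB : A + B ≤ 1 := by
        have : (A + B) * Real.cos (π / n) ≤ 1 * Real.cos (π / n) := by rw [hsum, one_mul]; exact hs'
        exact le_of_mul_le_mul_right this hcn
      have hx3 : x = A • Complex.exp (2 * π * i / n * Complex.I) +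
          B • Complex.exp (2 * π * ((i + 1 : ℤ) : ℂ) / n * Complex.I) := by
        have e1 : Complex.exp (2 * π * i / n * Complex.I) =
            Complex.exp (((2 * i + 1) * π / n : ℝ) * Complex.I) *
              Complex.exp ((-(π / n) : ℝ) * Complex.I) := by
          rw [← Complex.exp_add]; congr 1; push_cast; ring
        have e2 : Complex.exp (2 * π * ((i + 1 : ℤ) : ℂ) / n * Complex.I) =
            Complex.exp (((2 * i + 1) * π / n : ℝ) * Complex.I) *
              Complex.exp ((π / n : ℝ) * Complex.I) := by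
          rw [← Complex.exp_add]; congr 1; push_cast; ring
        have e3 : x = Complex.exp (((2 * i + 1) * π / n : ℝ) * Complex.I) *
            ((‖x‖ : ℝ) * Complex.exp ((y : ℝ) * Complex.I)) := by
          conv_lhs => rw [hxp]
          rw [mul_left_comm, ← Complex.exp_add]
          congr 2
          rw [hy]; push_cast; ring
        have e4 : ((‖x‖ : ℝ) * Complex.exp ((y : ℝ) * Complex.I) : ℂ) =
            A • Complex.exp ((-(π / n) : ℝ) * Complex.I) +
              B • Complex.exp ((π / n : ℝ) * Complex.I) := by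
          apply Complex.ext
          · rw [re_polar, Complex.add_re, Complex.real_smul, Complex.real_smul, re_polar, re_polar,
              Real.cos_neg, ← hsum]; ring
          · rw [im_polar, Complex.add_im, Complex.real_smul, Complex.real_smul, im_polar, im_polar,
              Real.sin_neg, ← hdif]; ring
        rw [e1, e2]
        conv_lhs => rw [e3, e4]
        simp only [Complex.real_smul]
        ring
      have hC := convex_convexHull ℝ (regVertices n 1)
      have v1 : Complex.exp (2 * π * i / n * Complex.I) ∈ convexHull ℝ (regVertices n 1) :=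
        subset_convexHull ℝ _ ⟨i, by ring⟩
      have v2 : Complex.exp (2 * π * ((i + 1 : ℤ) : ℂ) / n * Complex.I) ∈
          convexHull ℝ (regVertices n 1) :=
        subset_convexHull ℝ _ ⟨i + 1, by ring⟩
      have := hC.sum_mem (t := Finset.univ) (w := ![A, B, 1 - (A + B)])
        (z := ![Complex.exp (2 * π * i / n * Complex.I),
          Complex.exp (2 * π * ((i + 1 : ℤ) : ℂ) / n * Complex.I), 0])
        (by
          intro j _
          fin_cases j
          · exact hA0
          · exact hB0
          · show 0 ≤ 1 - (A + B); linarith)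
        (by rw [Fin.sum_univ_three]; simp)
        (by
          intro j _
          fin_cases j
          · exact v1
          · exact v2
          · exact zero_mem_conv hn)
      rw [Fin.sum_univ_three] at this
      simp only [Matrix.cons_val_zero, Matrix.cons_val_one, Matrix.cons_val_two, Matrix.head_cons,
        Matrix.tail_cons, smul_zero, add_zero] at this
      rw [hx3]
      simpa using this

end Pool.Agent.R165.Poly
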