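import Pool.Agent.R165.Poly.Struct

/-! Reflection, frontier and the total area and perimeter. -/

set_option autoImplicit false

open MeasureTheory Metric Set
open scoped Real ENNReal

namespace Pool.Agent.R165.Poly

variable {k n : ℕ} {ε : ℝ} {h : ℤ → ℝ}

/-- reflected support numbers -/
def refl (k : ℕ) (h : ℤ → ℝ) : ℤ → ℝ := fun l => h (-l - k)

lemma Adm.refl (ha : Adm k n ε h) : Adm k n ε (refl k h) := by
  refine ⟨fun l => ha.near _, fun l => ?_⟩
  unfold Poly.refl
  rw [← ha.per (-(l + k * n) - k)]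
  congr 1; ring

lemma ph_neg (l : ℤ) : ph k n (-l - k) = -ph k n l := by
  unfold ph; push_cast; ring

lemma mem_refl (x : ℂ) : x ∈ U k n (refl k h) ↔ (starRingEnd ℂ) x ∈ U k n h := by
  have key : ∀ (y : ℂ) (l : ℤ), ((starRingEnd ℂ) y *
      Complex.exp (-(ph k n (-l - k) : ℝ) * Complex.I)).re =
      (y * Complex.exp (-(ph k n l : ℝ) * Complex.I)).re := by
    intro y l
    rw [ph_neg, ← Complex.conj_re (y * _), map_mul, ← Complex.exp_conj]
    congr 3
    simp
  constructor
  · rintro ⟨c, hc⟩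
    refine ⟨-c - k, fun i => ?_⟩
    have h1 := hc (-i)
    rw [← key] at h1
    have e : -(c + -i * k) - (k : ℤ) = -c - k + i * k := by ring
    unfold refl at h1
    rw [e] at h1
    exact h1
  · rintro ⟨c, hc⟩
    refine ⟨-c - k, fun i => ?_⟩
    have h1 := hc (-i)
    have e : -(-c - k + i * k) - (k : ℤ) = c + -i * k := by ring
    rw [← key, e]
    unfold refl
    rw [e]
    exact h1

section

variable (hk : 1 ≤ k) (hn : 3 ≤ n) (hs : Small k n ε)
include hk hn hs

lemma vv_refl (ha : Adm k n ε h) (m : ℤ) : vv k n (refl k h) (-m - 1) = -vv k n h (m + 1) := by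
  have hd := dl_pos hk hn
  have hkd := k_dl hk hn
  have hpn := pn_le hk hn hs
  have hpi := Real.pi_pos
  have hk1 : (1 : ℝ) ≤ k := by exact_mod_cast hk
  have hdK : dl k n ≤ k * dl k n := le_mul_of_one_le_left hd.le hk1
  have h3 := hs.s3 (h (m + 1)) (h (m + 1 - k)) (ha.near _) (ha.near _)
  rw [abs_lt] at h3
  have hdual := cr_dual (ha.pos hs (m + 1)) (ha.pos hs (m + 1 - k)) (sin_al hk hn hs)
    (t := 2 * k * dl k n) (by positivity) (by linarith)
  unfold vv
  have e1 : refl k h (-m - 1) = h (m + 1 - k) := by unfold refl; congr 1; ring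
  have e2 : refl k h (-m - 1 - k) = h (m + 1) := by unfold refl; congr 1; ring
  have e3 : ph k n (-m - 1) = -ph k n (m + 1) + 2 * k * dl k n := by unfold ph; push_cast; ring
  rw [e1, e2, e3]
  linarith

lemma sin_be (hk2 : 2 ≤ k) : 0 < Real.sin (2 * (k - 1) * dl k n) := by
  have hd := dl_pos hk hn
  have hkd := k_dl hk hn
  have hpn := pn_le hk hn hs
  have hpi := Real.pi_pos
  have hk2' : (2 : ℝ) ≤ k := by exact_mod_cast hk2
  apply Real.sin_pos_of_pos_of_lt_pi
  · have : (0 : ℝ) < k - 1 := by linarith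
    positivity
  · linarith

lemma cr_one (a b : ℝ) (hk2 : ¬ 2 ≤ k) : cr a b (2 * (k - 1) * dl k n) = 0 := by
  have hk1 : k = 1 := by omega
  subst hk1
  unfold cr; simp

lemma ww_refl (ha : Adm k n ε h) (m : ℤ) : ww k n (refl k h) (-m - 1) = -ww k n h m := by
  have hd := dl_pos hk hn
  have hkd := k_dl hk hn
  have hpn := pn_le hk hn hs
  have hpi := Real.pi_pos
  have hk1 : (1 : ℝ) ≤ k := by exact_mod_cast hk
  have hdK : dl k n ≤ k * dl k n := le_mul_of_one_le_left hd.le hk1
  unfold ww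
  have e1 : refl k h (-m - 1) = h (m + 1 - k) := by unfold refl; congr 1; ring
  have e2 : refl k h (-m - 1 + 1 - k) = h m := by unfold refl; congr 1; ring
  have e3 : ph k n (-m - 1) = -ph k n m + 2 * (k - 1) * dl k n := by unfold ph; push_cast; ring
  rw [e1, e2, e3]
  by_cases hk2 : 2 ≤ k
  · have hk2' : (2 : ℝ) ≤ k := by exact_mod_cast hk2
    have h3 := hs.s4 hk2 (h m) (h (m + 1 - k)) (ha.near _) (ha.near _)
    rw [abs_lt] at h3
    have hk1' : (0 : ℝ) < k - 1 := by linarith
    have hdual := cr_dual (ha.pos hs m) (ha.pos hs (m + 1 - k)) (sin_be hk hn hs hk2)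
      (t := 2 * (k - 1) * dl k n) (by positivity) (by linarith)
    linarith
  · rw [cr_one hk hn hs _ _ hk2, cr_one hk hn hs _ _ hk2]
    have : k = 1 := by omega
    subst this
    push_cast; ring

/-- **Second type of edge.** -/
theorem second_piece (ha : Adm k n ε h) (m : ℤ) {θ s : ℝ} (hs0 : 0 ≤ s)
    (h1 : ww k n h m ≤ θ) (h2 : θ ≤ vv k n h (m + 1)) :
    (s : ℂ) * Complex.exp (θ * Complex.I) ∈ U k n h ↔
      s * Real.cos (θ - ph k n (m + 1 - k)) ≤ h (m + 1 - k) := by
  have key := first_piece hk hn hs ha.refl (-m - 1) (θ := -θ) hs0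
    (by rw [vv_refl hk hn hs ha]; linarith) (by rw [ww_refl hk hn hs ha]; linarith)
  rw [mem_refl, map_mul, ← Complex.exp_conj] at key
  have e0 : (starRingEnd ℂ) (s : ℂ) = s := Complex.conj_ofReal s
  have e1 : (starRingEnd ℂ) (((-θ : ℝ) : ℂ) * Complex.I) = θ * Complex.I := by simp
  have e2 : refl k h (-m - 1) = h (m + 1 - k) := by unfold refl; congr 1; ring
  have e3 : Real.cos (-θ - ph k n (-m - 1)) = Real.cos (θ - ph k n (m + 1 - k)) := by
    rw [← Real.cos_neg]
    congr 1
    have : ph k n (-m - 1) = -ph k n (m + 1 - k) := by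
      rw [← ph_neg]; congr 1; ring
    rw [this]; ring
  rw [e0, e1, e2, e3] at key
  exact key

/-! ### closedness, interior -/

omit hn hs in
lemma U_eq : U k n h = ⋃ c ∈ Finset.range k, {x : ℂ | ∀ i : ℤ,
    (x * Complex.exp (-(ph k n ((c : ℤ) + i * k) : ℝ) * Complex.I)).re ≤ h ((c : ℤ) + i * k)} := by
  ext x
  simp only [U, mem_setOf_eq, mem_iUnion, Finset.mem_range, exists_prop]
  have hkz : (0 : ℤ) < k := by exact_mod_cast hk
  constructor
  · rintro ⟨c, hc⟩
    have h1 := Int.emod_nonneg c hkz.ne'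
    have h2 := Int.emod_lt_of_pos c hkz
    refine ⟨(c % k).toNat, by omega, fun i => ?_⟩
    have h3 := hc (i - c / k)
    have e : c + (i - c / k) * k = ((c % k).toNat : ℤ) + i * k := by
      rw [Int.toNat_of_nonneg h1]
      have := Int.emod_add_mul_ediv c k
      linarith
    rwa [e] at h3
  · rintro ⟨c, _, hc⟩
    exact ⟨c, hc⟩

omit hn hs in
lemma isClosed_U : IsClosed (U k n h) := by
  rw [U_eq hk]
  refine Set.Finite.isClosed_biUnion (Finset.finite_toSet _) fun c _ => ?_
  have : {x : ℂ | ∀ i : ℤ,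
      (x * Complex.exp (-(ph k n ((c : ℤ) + i * k) : ℝ) * Complex.I)).re ≤ h ((c : ℤ) + i * k)} =
      ⋂ i : ℤ, {x : ℂ | (x * Complex.exp (-(ph k n ((c : ℤ) + i * k) : ℝ) * Complex.I)).re ≤
        h ((c : ℤ) + i * k)} := by ext; simp
  rw [this]
  refine isClosed_iInter fun i => isClosed_le ?_ continuous_const
  exact Complex.continuous_re.comp (continuous_id.mul continuous_const)

lemma smul_mem_interior (ha : Adm k n ε h) {x : ℂ} (hx : x ∈ U k n h) {s : ℝ} (hs0 : 0 ≤ s)
    (hs1 : s < 1) : (s : ℂ) * x ∈ interior (U k n h) := by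
  obtain ⟨c, hc⟩ := hx
  have hnz : (0 : ℤ) < n := by exact_mod_cast (by omega : 0 < n)
  set O : Set ℂ := ⋂ j ∈ Finset.range n, {y : ℂ |
    (y * Complex.exp (-(ph k n (c + (j : ℤ) * k) : ℝ) * Complex.I)).re < h (c + (j : ℤ) * k)}
    with hO
  have hopen : IsOpen O := by
    refine isOpen_biInter_finset fun j _ => isOpen_lt ?_ continuous_const
    exact Complex.continuous_re.comp (continuous_id.mul continuous_const)
  have hsub : O ⊆ U k n h := by
    intro y hy
    refine ⟨c, fun i => ?_⟩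
    have hj0 := Int.emod_nonneg i hnz.ne'
    have hjn := Int.emod_lt_of_pos i hnz
    have hj := mem_iInter₂.1 hy (i % n).toNat (by rw [Finset.mem_range]; omega)
    simp only [mem_setOf_eq] at hj
    rw [Int.toNat_of_nonneg hj0] at hj
    have hi : i = i % n + (i / n) * n := by
      have := Int.emod_add_mul_ediv i n
      linarith
    have hh : h (c + i * k) = h (c + i % n * k) := by
      conv_lhs => rw [hi]
      rw [← ha.per_mul (c + i % n * k) (i / n)]; congr 1; ring
    have hang : Complex.exp (-(ph k n (c + i * k) : ℝ) * Complex.I) =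
        Complex.exp (-(ph k n (c + i % n * k) : ℝ) * Complex.I) := by
      have e1 : (-(ph k n (c + i * k) : ℝ) : ℂ) = ((-(ph k n (c + i * k)) : ℝ) : ℂ) := by
        push_cast; ring
      have e2 : (-(ph k n (c + i % n * k) : ℝ) : ℂ) = ((-(ph k n (c + i % n * k)) : ℝ) : ℂ) := by
        push_cast; ring
      rw [e1, e2, exp_eq_iff]
      refine ⟨-(i / n), ?_⟩
      have hknd := kn_dl hk hn
      conv_lhs => rw [hi]
      have e3 : c + (i % n + i / n * n) * k = (c + i % n * k) + (i / n * n) * k := by ring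
      rw [e3, ph_add, ← hknd]; push_cast; ring
    rw [hh, hang]
    exact hj.le
  refine mem_interior.2 ⟨O, hsub, hopen, ?_⟩
  rw [hO, mem_iInter₂]
  intro j _
  simp only [mem_setOf_eq]
  rw [mul_assoc, Complex.re_ofReal_mul]
  have h1 := hc j
  have h2 := ha.pos hs (c + (j : ℤ) * k)
  rcases le_or_gt (x * Complex.exp (-(ph k n (c + (j : ℤ) * k) : ℝ) * Complex.I)).re 0 with h3 | h3
  · exact (mul_nonpos_of_nonneg_of_nonpos hs0 h3).trans_lt h2
  · calc s * (x * Complex.exp (-(ph k n (c + (j : ℤ) * k) : ℝ) * Complex.I)).re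
        < 1 * (x * Complex.exp (-(ph k n (c + (j : ℤ) * k) : ℝ) * Complex.I)).re :=
          mul_lt_mul_of_pos_right hs1 h3
      _ ≤ _ := by rw [one_mul]; exact h1

/-- the frontier on a ray -/
lemma frontier_ray (ha : Adm k n ε h) {θ c H : ℝ} (hc : 0 < c) (hH : 0 < H)
    (hray : ∀ s : ℝ, 0 ≤ s → ((s : ℂ) * Complex.exp (θ * Complex.I) ∈ U k n h ↔ s * c ≤ H))
    {s : ℝ} (hs0 : 0 < s) :
    (s : ℂ) * Complex.exp (θ * Complex.I) ∈ frontier (U k n h) ↔ s * c = H := by
  rw [(isClosed_U hk).frontier_eq, mem_sdiff, hray s hs0.le]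
  constructor
  · rintro ⟨h1, h2⟩
    by_contra hne
    apply h2
    have hlt : s * c < H := lt_of_le_of_ne h1 hne
    have hmem : ((H / c : ℝ) : ℂ) * Complex.exp (θ * Complex.I) ∈ U k n h := by
      rw [hray _ (by positivity), div_mul_cancel₀ _ hc.ne']
    have hlt2 : s * c / H < 1 := by rw [div_lt_one hH]; exact hlt
    have := smul_mem_interior hk hn hs ha hmem (s := s * c / H) (by positivity) hlt2
    rw [← mul_assoc, ← Complex.ofReal_mul] at this
    have e : s * c / H * (H / c) = s := by field_simp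
    rwa [e] at this
  · intro h1
    refine ⟨h1.le, fun h2 => ?_⟩
    -- a slightly larger multiple would be in `U`
    have hcont : Filter.Tendsto (fun t : ℝ => ((t * s : ℝ) : ℂ) * Complex.exp (θ * Complex.I))
        (nhds 1) (nhds ((s : ℂ) * Complex.exp (θ * Complex.I))) := by
      have : Continuous (fun t : ℝ => ((t * s : ℝ) : ℂ) * Complex.exp (θ * Complex.I)) := by
        fun_prop
      have h3 := this.tendsto 1
      simpa using h3
    have h4 := hcont.eventually (mem_interior_iff_mem_nhds.1 h2)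
    obtain ⟨δ, hδ, h5⟩ := Metric.eventually_nhds_iff.1 h4
    have h6 := h5 (y := 1 + δ / 2) (by
      rw [Real.dist_eq]; rw [add_sub_cancel_left, abs_of_pos (by positivity)]; linarith)
    have h7 : ((((1 + δ / 2) * s : ℝ) : ℂ) * Complex.exp (θ * Complex.I)) ∈ U k n h := h6
    rw [hray _ (by positivity)] at h7
    have : 0 < δ / 2 * (s * c) := by positivity
    nlinarith

end

end Pool.Agent.R165.Poly
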