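import Mathlib

/-! Angular sectors of the complex plane and the measure of star-shaped polygons. -/

set_option autoImplicit false

open MeasureTheory Metric Set
open scoped Real ENNReal

namespace Pool.Agent.R165.Poly

/-- half-open sector -/
def sector (a b : ℝ) : Set ℂ :=
  {z | ∃ s θ : ℝ, 0 < s ∧ a ≤ θ ∧ θ < b ∧ z = s * Complex.exp (θ * Complex.I)}

lemma exp_eq_iff {θ θ' : ℝ} : Complex.exp (θ * Complex.I) = Complex.exp (θ' * Complex.I) ↔
    ∃ n : ℤ, θ = θ' + n * (2 * π) := by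
  rw [Complex.exp_eq_exp_iff_exists_int]
  constructor
  · rintro ⟨n, hn⟩
    refine ⟨n, ?_⟩
    have h1 : ((θ : ℂ) - (θ' + n * (2 * π))) * Complex.I = 0 := by
      linear_combination hn
    have h2 : ((θ : ℂ) - (θ' + n * (2 * π))) = 0 := by
      rcases mul_eq_zero.1 h1 with h | h
      · exact h
      · exact absurd h Complex.I_ne_zero
    have h3 : (θ : ℂ) = ((θ' + n * (2 * π) : ℝ) : ℂ) := by
      push_cast; linear_combination h2
    exact_mod_cast h3
  · rintro ⟨n, rfl⟩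
    refine ⟨n, ?_⟩
    push_cast; ring

lemma polar_eq {s s' θ θ' : ℝ} (hs : 0 < s) (hs' : 0 < s')
    (h : (s : ℂ) * Complex.exp (θ * Complex.I) = s' * Complex.exp (θ' * Complex.I)) :
    s = s' ∧ Complex.exp (θ * Complex.I) = Complex.exp (θ' * Complex.I) := by
  have h1 := congrArg (fun z : ℂ => ‖z‖) h
  simp only [norm_mul, Complex.norm_real, Complex.norm_exp_ofReal_mul_I, mul_one,
    Real.norm_eq_abs, abs_of_pos hs, abs_of_pos hs'] at h1
  subst h1
  refine ⟨rfl, ?_⟩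
  have : (s : ℂ) ≠ 0 := by exact_mod_cast hs.ne'
  exact mul_left_cancel₀ this h

lemma sector_eq (a b : ℝ) : sector a b =
    {z | z ≠ 0} ∩ ⋃ n : ℤ, {z | a ≤ Complex.arg z + n * (2 * π) ∧
      Complex.arg z + n * (2 * π) < b} := by
  ext z
  simp only [sector, mem_setOf_eq, mem_inter_iff, mem_iUnion]
  constructor
  · rintro ⟨s, θ, hs, ha, hb, rfl⟩
    have hne : (s : ℂ) * Complex.exp (θ * Complex.I) ≠ 0 :=
      mul_ne_zero (by exact_mod_cast hs.ne') (Complex.exp_ne_zero _)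
    refine ⟨hne, ?_⟩
    have h1 := Complex.norm_mul_exp_arg_mul_I ((s : ℂ) * Complex.exp (θ * Complex.I))
    obtain ⟨_, h2⟩ := polar_eq (norm_pos_iff.2 hne) hs h1
    rw [eq_comm, exp_eq_iff] at h2
    obtain ⟨n, hn⟩ := h2
    exact ⟨n, hn ▸ ha, hn ▸ hb⟩
  · rintro ⟨hne, n, ha, hb⟩
    refine ⟨‖z‖, Complex.arg z + n * (2 * π), norm_pos_iff.2 hne, ha, hb, ?_⟩
    have h1 : Complex.exp ((Complex.arg z + n * (2 * π) : ℝ) * Complex.I) =
        Complex.exp (Complex.arg z * Complex.I) := exp_eq_iff.2 ⟨n, rfl⟩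
    rw [h1, Complex.norm_mul_exp_arg_mul_I]

lemma measurableSet_sector (a b : ℝ) : MeasurableSet (sector a b) := by
  rw [sector_eq]
  refine (measurableSet_singleton (0 : ℂ)).compl.inter (MeasurableSet.iUnion fun n => ?_)
  have hm : Measurable fun z : ℂ => Complex.arg z + n * (2 * π) :=
    Complex.measurable_arg.add_const _
  exact (measurableSet_le measurable_const hm).inter (measurableSet_lt hm measurable_const)

lemma sector_full (a : ℝ) : sector a (a + 2 * π) = {0}ᶜ := by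
  ext z
  simp only [sector, mem_setOf_eq, mem_compl_iff, mem_singleton_iff]
  constructor
  · rintro ⟨s, θ, hs, ha, hb, rfl⟩
    exact mul_ne_zero (by exact_mod_cast hs.ne') (Complex.exp_ne_zero _)
  · intro hz
    have h2 := toIcoMod_mem_Ico Real.two_pi_pos a (Complex.arg z)
    refine ⟨‖z‖, toIcoMod Real.two_pi_pos a (Complex.arg z), norm_pos_iff.2 hz, h2.1, h2.2, ?_⟩
    have h1 : Complex.exp ((toIcoMod Real.two_pi_pos a (Complex.arg z) : ℝ) * Complex.I) =
        Complex.exp (Complex.arg z * Complex.I) := by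
      rw [exp_eq_iff]
      refine ⟨-toIcoDiv Real.two_pi_pos a (Complex.arg z), ?_⟩
      have := toIcoMod_add_toIcoDiv_zsmul Real.two_pi_pos a (Complex.arg z)
      rw [zsmul_eq_mul] at this
      push_cast
      linarith
    rw [h1, Complex.norm_mul_exp_arg_mul_I]

lemma measure_split (μ : Measure ℂ) (X : Set ℂ) {a b c : ℝ} (hab : a ≤ b) (hbc : b ≤ c)
    (hca : c ≤ a + 2 * π) :
    μ (X ∩ sector a c) = μ (X ∩ sector a b) + μ (X ∩ sector b c) := by
  rw [← measure_inter_add_diff (X ∩ sector a c) (measurableSet_sector a b)]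
  congr 2
  · ext z
    simp only [mem_inter_iff, sector, mem_setOf_eq]
    constructor
    · rintro ⟨⟨h1, h2⟩, h3⟩; exact ⟨h1, h3⟩
    · rintro ⟨h1, s, θ, hs, ha, hb, rfl⟩
      exact ⟨⟨h1, s, θ, hs, ha, hb.trans_le hbc, rfl⟩, s, θ, hs, ha, hb, rfl⟩
  · ext z
    simp only [mem_inter_iff, mem_diff, sector, mem_setOf_eq]
    constructor
    · rintro ⟨⟨h1, s, θ, hs, ha, hb, rfl⟩, h3⟩
      refine ⟨h1, s, θ, hs, ?_, hb, rfl⟩
      by_contra hcon
      exact h3 ⟨s, θ, hs, ha, not_le.1 hcon, rfl⟩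
    · rintro ⟨h1, s, θ, hs, ha, hb, rfl⟩
      refine ⟨⟨h1, s, θ, hs, hab.trans ha, hb, rfl⟩, ?_⟩
      rintro ⟨s', θ', hs', ha', hb', h⟩
      obtain ⟨_, h2⟩ := polar_eq hs hs' h
      obtain ⟨n, hn⟩ := exp_eq_iff.1 h2
      have hpi := Real.two_pi_pos
      have h3 : 0 < (n : ℝ) * (2 * π) := by linarith
      have h4 : (n : ℝ) * (2 * π) < 2 * π := by linarith
      have h5 : (0 : ℝ) < n := by
        by_contra hcon
        have : (n : ℝ) * (2 * π) ≤ 0 := mul_nonpos_of_nonpos_of_nonneg (not_lt.1 hcon) hpi.le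
        linarith
      have h6 : (n : ℝ) < 1 := by
        by_contra hcon
        have := mul_le_mul_of_nonneg_right (not_lt.1 hcon) hpi.le
        linarith
      have h7 : (0 : ℤ) < n := by exact_mod_cast h5
      have h8 : n < 1 := by exact_mod_cast h6
      omega

/-- the standard triangle -/
def tri (h A B : ℝ) : Set ℂ := {z | 0 < z.re ∧ z.re ≤ h ∧ z.re * A ≤ z.im ∧ z.im < z.re * B}

/-- the standard edge -/
def edge (h A B : ℝ) : Set ℂ := {z | z.re = h ∧ h * A ≤ z.im ∧ z.im < h * B}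

lemma polar_std {a b s θ : ℝ} (ha : -(π / 2) < a) (hb : b < π / 2) (hs : 0 < s) (h1 : a ≤ θ)
    (h2 : θ < b) : 0 < s * Real.cos θ ∧ s * Real.cos θ * Real.tan a ≤ s * Real.sin θ ∧
      s * Real.sin θ < s * Real.cos θ * Real.tan b := by
  have hc : 0 < Real.cos θ := Real.cos_pos_of_mem_Ioo ⟨by linarith, by linarith⟩
  have hsc : 0 < s * Real.cos θ := by positivity
  have ht : s * Real.sin θ = s * Real.cos θ * Real.tan θ := by
    rw [mul_assoc, mul_comm (Real.cos θ), Real.tan_mul_cos hc.ne']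
  refine ⟨hsc, ?_, ?_⟩
  · rw [ht]
    exact mul_le_mul_of_nonneg_left
      (Real.strictMonoOn_tan.monotoneOn ⟨ha, by linarith⟩ ⟨by linarith, by linarith⟩ h1) hsc.le
  · rw [ht]
    exact mul_lt_mul_of_pos_left
      (Real.strictMonoOn_tan ⟨by linarith, by linarith⟩ ⟨by linarith, hb⟩ h2) hsc

lemma polar_inv {a b : ℝ} (ha : -(π / 2) < a) (hab : a ≤ b) (hb : b < π / 2) {z : ℂ}
    (h0 : 0 < z.re) (h1 : z.re * Real.tan a ≤ z.im) (h2 : z.im < z.re * Real.tan b) :
    ∃ s θ : ℝ, 0 < s ∧ a ≤ θ ∧ θ < b ∧ z = s * Complex.exp (θ * Complex.I) := by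
  have hz : z ≠ 0 := by rintro rfl; simp at h0
  have harg : |Complex.arg z| < π / 2 := by
    rw [Complex.abs_arg_lt_pi_div_two_iff]; exact Or.inl h0
  rw [abs_lt] at harg
  have htan : Real.tan (Complex.arg z) = z.im / z.re := Complex.tan_arg z
  refine ⟨‖z‖, Complex.arg z, norm_pos_iff.2 hz, ?_, ?_, (Complex.norm_mul_exp_arg_mul_I z).symm⟩
  · by_contra hcon
    have := Real.strictMonoOn_tan ⟨harg.1, harg.2⟩ ⟨ha, by linarith⟩ (not_le.1 hcon)
    rw [htan, div_lt_iff₀ h0] at this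
    linarith
  · by_contra hcon
    have := Real.strictMonoOn_tan.monotoneOn ⟨by linarith, hb⟩ ⟨harg.1, harg.2⟩ (not_lt.1 hcon)
    rw [htan, le_div_iff₀ h0] at this
    linarith

lemma re_polar (s θ : ℝ) : ((s : ℂ) * Complex.exp (θ * Complex.I)).re = s * Real.cos θ := by
  rw [Complex.re_ofReal_mul, Complex.exp_ofReal_mul_I_re]

lemma im_polar (s θ : ℝ) : ((s : ℂ) * Complex.exp (θ * Complex.I)).im = s * Real.sin θ := by
  rw [Complex.im_ofReal_mul, Complex.exp_ofReal_mul_I_im]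

/-- rotation by the angle `φ` -/
noncomputable def rot (φ : ℝ) : ℂ ≃ₗᵢ[ℝ] ℂ := rotation (Circle.exp φ)

lemma rot_apply (φ : ℝ) (z : ℂ) : rot φ z = Complex.exp (φ * Complex.I) * z := by
  rw [rot, rotation_apply, Circle.coe_exp]

lemma rot_polar (φ s θ : ℝ) : rot φ (s * Complex.exp ((θ - φ : ℝ) * Complex.I)) =
    s * Complex.exp (θ * Complex.I) := by
  rw [rot_apply, mul_left_comm, ← Complex.exp_add]
  congr 2
  push_cast; ring

lemma piece_tri {h φ a b : ℝ} (ha : -(π / 2) < a - φ) (hab : a ≤ b) (hb : b - φ < π / 2) :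
    {z : ℂ | ∃ s θ : ℝ, 0 < s ∧ a ≤ θ ∧ θ < b ∧ s * Real.cos (θ - φ) ≤ h ∧
      z = s * Complex.exp (θ * Complex.I)} =
    rot φ '' tri h (Real.tan (a - φ)) (Real.tan (b - φ)) := by
  ext z
  constructor
  · rintro ⟨s, θ, hs, h1, h2, h3, rfl⟩
    refine ⟨s * Complex.exp ((θ - φ : ℝ) * Complex.I), ?_, rot_polar _ _ _⟩
    obtain ⟨g1, g2, g3⟩ := polar_std ha hb hs (by linarith : a - φ ≤ θ - φ)
      (by linarith : θ - φ < b - φ)
    refine ⟨?_, ?_, ?_, ?_⟩ <;> simp only [re_polar, im_polar] <;> assumption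
  · rintro ⟨w, ⟨h0, h1, h2, h3⟩, rfl⟩
    obtain ⟨s, θ, hs, h4, h5, rfl⟩ := polar_inv ha (by linarith) hb h0 h2 h3
    refine ⟨s, θ + φ, hs, by linarith, by linarith, ?_, ?_⟩
    · rw [re_polar] at h1
      rwa [add_sub_cancel_right]
    · rw [← rot_polar φ s (θ + φ), add_sub_cancel_right]

lemma piece_edge {h φ a b : ℝ} (hh : 0 < h) (ha : -(π / 2) < a - φ) (hab : a ≤ b)
    (hb : b - φ < π / 2) :
    {z : ℂ | ∃ s θ : ℝ, 0 < s ∧ a ≤ θ ∧ θ < b ∧ s * Real.cos (θ - φ) = h ∧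
      z = s * Complex.exp (θ * Complex.I)} =
    rot φ '' edge h (Real.tan (a - φ)) (Real.tan (b - φ)) := by
  ext z
  constructor
  · rintro ⟨s, θ, hs, h1, h2, h3, rfl⟩
    refine ⟨s * Complex.exp ((θ - φ : ℝ) * Complex.I), ?_, rot_polar _ _ _⟩
    obtain ⟨g1, g2, g3⟩ := polar_std ha hb hs (by linarith : a - φ ≤ θ - φ)
      (by linarith : θ - φ < b - φ)
    rw [h3] at g2 g3
    refine ⟨?_, ?_, ?_⟩ <;> simp only [re_polar, im_polar] <;> assumption
  · rintro ⟨w, ⟨h1, h2, h3⟩, rfl⟩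
    obtain ⟨s, θ, hs, h4, h5, rfl⟩ := polar_inv ha (by linarith) hb (by rw [h1]; exact hh)
      (by rw [h1]; exact h2) (by rw [h1]; exact h3)
    refine ⟨s, θ + φ, hs, by linarith, by linarith, ?_, ?_⟩
    · rw [re_polar] at h1
      rwa [add_sub_cancel_right]
    · rw [← rot_polar φ s (θ + φ), add_sub_cancel_right]

lemma volume_tri {h A B : ℝ} (hh : 0 ≤ h) (hAB : A ≤ B) :
    volume (tri h A B) = ENNReal.ofReal (h ^ 2 / 2 * (B - A)) := by
  have h1 : tri h A B = Complex.measurableEquivRealProd ⁻¹'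
      {p : ℝ × ℝ | 0 < p.1 ∧ p.1 ≤ h ∧ p.1 * A ≤ p.2 ∧ p.2 < p.1 * B} := rfl
  have hmeas : MeasurableSet {p : ℝ × ℝ | 0 < p.1 ∧ p.1 ≤ h ∧ p.1 * A ≤ p.2 ∧ p.2 < p.1 * B} := by
    refine (measurableSet_lt measurable_const measurable_fst).inter
      ((measurableSet_le measurable_fst measurable_const).inter
      ((measurableSet_le (measurable_fst.mul_const A) measurable_snd).inter
      (measurableSet_lt measurable_snd (measurable_fst.mul_const B))))
  rw [h1, Complex.volume_preserving_equiv_real_prod.measure_preimage hmeas.nullMeasurableSet,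
    Measure.volume_eq_prod, Measure.prod_apply hmeas]
  have h2 : ∀ x : ℝ, volume (Prod.mk x ⁻¹'
      {p : ℝ × ℝ | 0 < p.1 ∧ p.1 ≤ h ∧ p.1 * A ≤ p.2 ∧ p.2 < p.1 * B}) =
      (Ioc 0 h).indicator (fun x => ENNReal.ofReal (x * (B - A))) x := by
    intro x
    by_cases hx : x ∈ Ioc 0 h
    · rw [indicator_of_mem hx]
      have : Prod.mk x ⁻¹' {p : ℝ × ℝ | 0 < p.1 ∧ p.1 ≤ h ∧ p.1 * A ≤ p.2 ∧ p.2 < p.1 * B} =
          Ico (x * A) (x * B) := by
        ext y; simp [hx.1, hx.2]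
      rw [this, Real.volume_Ico]
      congr 1; ring
    · rw [indicator_of_notMem hx]
      have : Prod.mk x ⁻¹' {p : ℝ × ℝ | 0 < p.1 ∧ p.1 ≤ h ∧ p.1 * A ≤ p.2 ∧ p.2 < p.1 * B} =
          ∅ := by
        ext y
        simp only [mem_preimage, mem_setOf_eq, mem_empty_iff_false, iff_false]
        rintro ⟨g1, g2, _⟩
        exact hx ⟨g1, g2⟩
      rw [this, measure_empty]
  simp_rw [h2]
  rw [lintegral_indicator measurableSet_Ioc]
  rw [← ofReal_integral_eq_lintegral_ofReal]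
  · congr 1
    rw [← intervalIntegral.integral_of_le hh, intervalIntegral.integral_mul_const, integral_id]
    ring
  · exact (continuous_id.mul_const (B - A)).integrableOn_Ioc
  · filter_upwards [ae_restrict_mem measurableSet_Ioc] with x hx
    exact mul_nonneg hx.1.le (by linarith)

lemma hausdorff_edge {h A B : ℝ} (hh : 0 ≤ h) (hAB : A ≤ B) :
    μH[1] (edge h A B) = ENNReal.ofReal (h * (B - A)) := by
  have hiso : Isometry (fun y : ℝ => (⟨h, y⟩ : ℂ)) := by
    refine Isometry.of_dist_eq fun x y => ?_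
    rw [Complex.dist_eq_re_im]
    simp [Real.sqrt_sq_eq_abs, Real.dist_eq]
  have h1 : edge h A B = (fun y : ℝ => (⟨h, y⟩ : ℂ)) '' Ico (h * A) (h * B) := by
    ext z
    simp only [edge, mem_setOf_eq, mem_image, mem_Ico]
    constructor
    · rintro ⟨g1, g2, g3⟩
      exact ⟨z.im, ⟨g2, g3⟩, by rw [← g1]⟩
    · rintro ⟨y, ⟨g1, g2⟩, rfl⟩
      exact ⟨rfl, g1, g2⟩
  rw [h1, hiso.hausdorffMeasure_image (Or.inl zero_le_one), hausdorffMeasure_real, Real.volume_Ico]
  congr 1; ring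

lemma piece_volume {h φ a b : ℝ} (hh : 0 < h) (ha : -(π / 2) < a - φ) (hab : a ≤ b)
    (hb : b - φ < π / 2) :
    volume {z : ℂ | ∃ s θ : ℝ, 0 < s ∧ a ≤ θ ∧ θ < b ∧ s * Real.cos (θ - φ) ≤ h ∧
      z = s * Complex.exp (θ * Complex.I)} =
    ENNReal.ofReal (h ^ 2 / 2 * (Real.tan (b - φ) - Real.tan (a - φ))) := by
  rw [piece_tri ha hab hb, (rot φ).image_eq_preimage_symm,
    ((rot φ).symm.measurePreserving).measure_preimage_emb
      (rot φ).symm.toHomeomorph.measurableEmbedding]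
  exact volume_tri hh.le (Real.strictMonoOn_tan.monotoneOn ⟨ha, by linarith⟩
    ⟨by linarith, hb⟩ (by linarith))

lemma piece_length {h φ a b : ℝ} (hh : 0 < h) (ha : -(π / 2) < a - φ) (hab : a ≤ b)
    (hb : b - φ < π / 2) :
    μH[1] {z : ℂ | ∃ s θ : ℝ, 0 < s ∧ a ≤ θ ∧ θ < b ∧ s * Real.cos (θ - φ) = h ∧
      z = s * Complex.exp (θ * Complex.I)} =
    ENNReal.ofReal (h * (Real.tan (b - φ) - Real.tan (a - φ))) := by
  rw [piece_edge hh ha hab hb, (rot φ).isometry.hausdorffMeasure_image (Or.inl zero_le_one)]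
  exact hausdorff_edge hh.le (Real.strictMonoOn_tan.monotoneOn ⟨ha, by linarith⟩
    ⟨by linarith, hb⟩ (by linarith))

end Pool.Agent.R165.Poly
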