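import Pool.Agent.R165.Poly.Canon

/-! Shifted setups: reduction to the canonical form, scaling, and the ratio. -/

set_option autoImplicit false

open MeasureTheory Metric Set
open scoped Real ENNReal Pointwise

namespace Pool.Agent.R165.Poly

/-- The regular `n`-gon centred at `0` that has `z` as a vertex. -/
def regPolygon (n : ℕ) (z : ℂ) : Set ℂ := convexHull ℝ (regVertices n z)

/-- The union of the polygons `P_i + ε a_i`, where `P_i` is the regular `n`-gon centred at `0`
that has `z_i` as a vertex. -/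
def shiftedUnion {k : ℕ} (n : ℕ) (z a : Fin k → ℂ) (ε : ℝ) : Set ℂ :=
  ⋃ i, (fun x : ℂ => x + ε * a i) '' regPolygon n (z i)

/-- perimeter (length of the boundary) divided by area -/
noncomputable def ratio (S : Set ℂ) : ℝ := (μH[1] (frontier S)).toReal / (volume S).toReal

lemma regVertices_eq {n : ℕ} {z w : ℂ} (h : w ∈ regVertices n z) :
    regVertices n w = regVertices n z := by
  obtain ⟨j, rfl⟩ := h
  ext x
  constructor
  · rintro ⟨i, rfl⟩
    refine ⟨j + i, ?_⟩
    rw [mul_assoc, ← Complex.exp_add]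
    congr 2; push_cast; ring
  · rintro ⟨i, rfl⟩
    refine ⟨i - j, ?_⟩
    rw [mul_assoc z (Complex.exp _), ← Complex.exp_add]
    congr 2; push_cast; ring

lemma regPolygon_eq (n : ℕ) (w : ℂ) :
    regPolygon n w = (fun x => w * x) '' regPolygon n 1 := by
  unfold regPolygon
  have h1 : regVertices n w = (LinearMap.mulLeft ℝ w) '' regVertices n 1 := by
    ext x
    constructor
    · rintro ⟨i, rfl⟩
      exact ⟨_, ⟨i, rfl⟩, by simp⟩
    · rintro ⟨_, ⟨i, rfl⟩, rfl⟩
      exact ⟨i, by simp⟩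
  rw [h1, ← LinearMap.image_convexHull]
  rfl

section

variable {k n : ℕ} {κ q : ℤ} {ε : ℝ} (hk : 1 ≤ k) (hn : 3 ≤ n) (hκ : κ * k = 1 + n * q)
include hk hn

lemma ph_val (t j : ℤ) : ph k n (n * t + j * k) = 2 * π * t / k + (2 * j + 1) * π / n := by
  have : (0 : ℝ) < k := by exact_mod_cast hk
  have : (0 : ℝ) < n := by exact_mod_cast (by omega : 0 < n)
  unfold ph dl
  push_cast
  field_simp
  ring

include hκ

lemma hh_val (t j : ℤ) : hh n κ ε (n * t + j * k) =
    Real.cos (π / n) + ε * Real.cos ((2 * j + 1) * π / n) := by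
  have hn0 : (n : ℝ) ≠ 0 := by
    have : n ≠ 0 := by omega
    exact_mod_cast this
  have hκ' : (κ : ℝ) * k = 1 + n * q := by exact_mod_cast hκ
  unfold hh
  congr 2
  rw [← Real.cos_add_int_mul_two_pi ((2 * j + 1) * π / n) (κ * t + j * q)]
  congr 1
  push_cast
  field_simp
  linear_combination (2 * j) * hκ'

lemma mem_U_iff (y : ℂ) : y ∈ U k n (hh n κ ε) ↔
    ∃ t : ℤ, y * Complex.exp (-((2 * π * t / k : ℝ) : ℂ) * Complex.I) - ε ∈ regPolygon n 1 := by
  have key : ∀ t j : ℤ, ((y * Complex.exp (-(ph k n (n * t + j * k) : ℝ) * Complex.I)).re ≤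
      hh n κ ε (n * t + j * k) ↔ ((y * Complex.exp (-((2 * π * t / k : ℝ) : ℂ) * Complex.I) - ε) *
        Complex.exp (-((2 * j + 1) * π / n : ℝ) * Complex.I)).re ≤ Real.cos (π / n)) := by
    intro t j
    rw [ph_val hk hn, hh_val hk hn hκ, sub_mul, Complex.sub_re, mul_assoc y (Complex.exp _),
      ← Complex.exp_add]
    have e1 : -((2 * π * t / k : ℝ) : ℂ) * Complex.I + -((2 * j + 1) * π / n : ℝ) * Complex.I =
        -((2 * π * t / k + (2 * j + 1) * π / n : ℝ) : ℂ) * Complex.I := by push_cast; ring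
    have e2 : ((ε : ℂ) * Complex.exp (-((2 * j + 1) * π / n : ℝ) * Complex.I)).re =
        ε * Real.cos ((2 * j + 1) * π / n) := by
      have : (-((2 * j + 1) * π / n : ℝ) : ℂ) = ((-((2 * j + 1) * π / n) : ℝ) : ℂ) := by
        push_cast; ring
      rw [this, re_polar, Real.cos_neg]
    rw [e1, e2, sub_le_iff_le_add]
  constructor
  · rintro ⟨c, hc⟩
    refine ⟨-c * q, (mem_conv hn _).2 fun j => ?_⟩
    rw [← key]
    have h1 := hc (j - c * κ)
    have e : c + (j - c * κ) * k = n * (-c * q) + j * k := by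
      linear_combination (-c) * hκ
    rwa [e] at h1
  · rintro ⟨t, ht⟩
    refine ⟨n * t, fun j => ?_⟩
    rw [key]
    exact (mem_conv hn _).1 ht j

/-- **Canonical form.** -/
lemma shifted_eq {z a : Fin k → ℂ} (ha : ∀ i, a i ∈ regVertices n (z i)) {b : ℂ}
    (hb : b ≠ 0) (hab : Set.range a = regVertices k b) :
    shiftedUnion n z a ε = (fun x => b * x) '' U k n (hh n κ ε) := by
  have hexp : ∀ t : ℤ, Complex.exp (2 * π * t / k * Complex.I) *
      Complex.exp (-((2 * π * t / k : ℝ) : ℂ) * Complex.I) = 1 := by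
    intro t
    rw [← Complex.exp_add]
    have : (2 * π * t / k * Complex.I : ℂ) + -((2 * π * t / k : ℝ) : ℂ) * Complex.I = 0 := by
      push_cast; ring
    rw [this, Complex.exp_zero]
  ext x
  constructor
  · intro hx
    obtain ⟨i, y, hy, rfl⟩ := mem_iUnion.1 hx
    have h1 : a i ∈ regVertices k b := hab ▸ mem_range_self i
    obtain ⟨t, ht⟩ := h1
    have h2 : regPolygon n (z i) = regPolygon n (a i) := by
      unfold regPolygon; rw [regVertices_eq (ha i)]
    rw [h2, regPolygon_eq] at hy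
    obtain ⟨p, hp, rfl⟩ := hy
    refine ⟨Complex.exp (2 * π * t / k * Complex.I) * (p + ε), ?_, ?_⟩
    · rw [mem_U_iff hk hn hκ]
      refine ⟨t, ?_⟩
      have : Complex.exp (2 * π * t / k * Complex.I) * (p + ε) *
          Complex.exp (-((2 * π * t / k : ℝ) : ℂ) * Complex.I) - ε = p := by
        linear_combination (p + ε) * hexp t
      rw [this]; exact hp
    · simp only
      rw [ht]; ring
  · rintro ⟨y, hy, rfl⟩
    rw [mem_U_iff hk hn hκ] at hy
    obtain ⟨t, ht⟩ := hy
    have h1 : b * Complex.exp (2 * π * t / k * Complex.I) ∈ Set.range a := hab ▸ ⟨t, rfl⟩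
    obtain ⟨i, hi⟩ := h1
    have h2 : regPolygon n (z i) = regPolygon n (a i) := by
      unfold regPolygon; rw [regVertices_eq (ha i)]
    refine mem_iUnion.2 ⟨i, a i * (y * Complex.exp (-((2 * π * t / k : ℝ) : ℂ) * Complex.I) - ε),
      ?_, ?_⟩
    · rw [h2, regPolygon_eq]
      exact ⟨_, ht, rfl⟩
    · simp only
      rw [hi]
      linear_combination (b * y) * hexp t

end

/-! ### Scaling -/

lemma image_mul (b : ℂ) (S : Set ℂ) : (fun x => b * x) '' S = rot (Complex.arg b) '' (‖b‖ • S) := by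
  ext x
  constructor
  · rintro ⟨y, hy, rfl⟩
    refine ⟨‖b‖ • y, smul_mem_smul_set hy, ?_⟩
    rw [rot_apply, Complex.real_smul, ← mul_assoc, mul_comm (Complex.exp _),
      Complex.norm_mul_exp_arg_mul_I]
  · rintro ⟨_, ⟨y, hy, rfl⟩, rfl⟩
    refine ⟨y, hy, ?_⟩
    simp only [rot_apply, Complex.real_smul]
    rw [← mul_assoc, mul_comm (Complex.exp _), Complex.norm_mul_exp_arg_mul_I]

lemma volume_image_mul (b : ℂ) (S : Set ℂ) :
    (volume ((fun x => b * x) '' S)).toReal = ‖b‖ ^ 2 * (volume S).toReal := by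
  rw [image_mul, (rot (Complex.arg b)).image_eq_preimage_symm,
    ((rot (Complex.arg b)).symm.measurePreserving).measure_preimage_emb
      (rot (Complex.arg b)).symm.toHomeomorph.measurableEmbedding, Measure.addHaar_smul,
    ENNReal.toReal_mul, Complex.finrank_real_complex, ENNReal.toReal_ofReal (abs_nonneg _),
    abs_of_nonneg (by positivity)]

lemma hausdorff_image_mul {b : ℂ} (hb : b ≠ 0) (S : Set ℂ) :
    (μH[1] (frontier ((fun x => b * x) '' S))).toReal = ‖b‖ * (μH[1] (frontier S)).toReal := by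
  have h1 : frontier ((fun x => b * x) '' S) = (fun x => b * x) '' frontier S :=
    ((Homeomorph.mulLeft₀ b hb).image_frontier S).symm
  rw [h1, image_mul, (rot (Complex.arg b)).isometry.hausdorffMeasure_image (Or.inl zero_le_one),
    Measure.hausdorffMeasure_smul₀ zero_le_one (norm_ne_zero_iff.2 hb)]
  simp

lemma ratio_image_mul {b : ℂ} (hb : b ≠ 0) (S : Set ℂ) :
    ratio ((fun x => b * x) '' S) = ratio S / ‖b‖ := by
  unfold ratio
  rw [volume_image_mul, hausdorff_image_mul hb]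
  have : ‖b‖ ≠ 0 := norm_ne_zero_iff.2 hb
  rw [div_div, pow_two, mul_assoc, mul_div_mul_left _ _ this, mul_comm ‖b‖]

lemma norm_of_mem {n : ℕ} {z w : ℂ} (h : w ∈ regVertices n z) : ‖w‖ = ‖z‖ := by
  obtain ⟨j, rfl⟩ := h
  have : (2 * π * j / n * Complex.I : ℂ) = ((2 * π * j / n : ℝ) : ℂ) * Complex.I := by
    push_cast; ring
  rw [norm_mul, this, Complex.norm_exp_ofReal_mul_I, mul_one]

/-- `z` describes a basic `(k, n)`-setup: the `i`-th polygon is the regular `n`-gon of side `1`
centred at `0` that has `z i` as a vertex (its circumradius is `1 / (2 sin (π / n))`), and the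
vertices of the polygons together form a regular `kn`-gon. -/
def IsBasicSetup (k n : ℕ) (z : Fin k → ℂ) : Prop :=
  (∀ i, ‖z i‖ = 1 / (2 * Real.sin (π / n))) ∧
    ∃ w : ℂ, ⋃ i, regVertices n (z i) = regVertices (k * n) w

/-- `a` is an admissible marking of the setup `z`: `a i` is a vertex of the `i`-th polygon and
`a 0, …, a (k-1)` form a regular `k`-gon centred at `0`. -/
def IsMarking (k n : ℕ) (z a : Fin k → ℂ) : Prop :=
  (∀ i, a i ∈ regVertices n (z i)) ∧ ∃ b : ℂ, Set.range a = regVertices k b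

/-- the main comparison -/
theorem ratio_iff {k n : ℕ} (hk : 1 ≤ k) (hn : 3 ≤ n) (hkn : k.Coprime n) {z a : Fin k → ℂ}
    (hz : IsBasicSetup k n z) (ha : IsMarking k n z a) :
    ∃ ε₀ > 0, ∀ ε : ℝ, 0 < ε → ε < ε₀ →
      (4 * Real.tan (π / n) < ratio (shiftedUnion n z a ε) ↔ 1 < k ∧ k ≡ 1 [MOD n]) := by
  obtain ⟨hz1, _⟩ := hz
  obtain ⟨ha1, b, hab⟩ := ha
  have hpi := Real.pi_pos
  have hn3 : (3 : ℝ) ≤ n := by exact_mod_cast hn
  have hk0 : (0 : ℝ) < k := by exact_mod_cast hk
  have hpn : π / n ≤ π / 3 := div_le_div_of_nonneg_left hpi.le (by norm_num) hn3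
  have hpn0 : 0 < π / n := by positivity
  have hsn : 0 < Real.sin (π / n) := Real.sin_pos_of_pos_of_lt_pi hpn0 (by linarith)
  have hcn : 0 < Real.cos (π / n) := Real.cos_pos_of_mem_Ioo ⟨by linarith, by linarith⟩
  have hbn : ‖b‖ = 1 / (2 * Real.sin (π / n)) := by
    have h1 : a ⟨0, hk⟩ ∈ regVertices k b := hab ▸ mem_range_self _
    rw [← norm_of_mem h1, norm_of_mem (ha1 _), hz1]
  have hb : b ≠ 0 := by
    rw [← norm_ne_zero_iff, hbn]; positivity
  -- an inverse of `k` modulo `n`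
  obtain ⟨κ, q, hκ⟩ : ∃ κ q : ℤ, κ * k = 1 + n * q := by
    have h1 : IsCoprime (k : ℤ) (n : ℤ) := Nat.isCoprime_iff_coprime.2 hkn
    obtain ⟨u, v, huv⟩ := h1
    exact ⟨u, -v, by linear_combination huv⟩
  obtain ⟨ε₀, hε₀, hsmall⟩ := exists_small hk hn
  refine ⟨ε₀, hε₀, fun ε hε hlt => ?_⟩
  have hs := hsmall ε hε.le hlt
  rw [shifted_eq hk hn hκ ha1 hb hab, ratio_image_mul hb, ← sign_iff hk hn hκ]
  have hpos := area_pos hk hn hs (adm_hh (k := k) (κ := κ) hn hs.pos)
  have hper := perim_val hk hn hκ hs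
  have harea := area_val hk hn hκ hs
  set σ := (Real.cos (2 * π * (κ - 1) / n) - Real.cos (2 * (k - 1) * dl k n)) /
          Real.sin (2 * (k - 1) * dl k n) with hσ
  unfold ratio
  rw [hper, hbn]
  have e1 : 2 * k * n * Real.cos (π / n) * TT k n / (volume (U k n (hh n κ ε))).toReal /
      (1 / (2 * Real.sin (π / n))) = 4 * Real.sin (π / n) *
        (k * n * Real.cos (π / n) * TT k n) / (volume (U k n (hh n κ ε))).toReal := by
    field_simp
    ring
  rw [e1, lt_div_iff₀ hpos, Real.tan_eq_sin_div_cos, harea]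
  have e2 : 4 * (Real.sin (π / n) / Real.cos (π / n)) *
      (k * n * Real.cos (π / n) ^ 2 * TT k n - k * n * ε ^ 2 / 2 * σ) =
      4 * Real.sin (π / n) * (k * n * Real.cos (π / n) * TT k n) -
        2 * Real.sin (π / n) / Real.cos (π / n) * (k * n * ε ^ 2) * σ := by
    field_simp
    ring
  rw [e2, sub_lt_self_iff]
  have hn0 : (0 : ℝ) < n := by linarith
  exact mul_pos_iff_of_pos_left (by positivity)

/-- basic setups with admissible markings exist -/
theorem exists_setup {k n : ℕ} (hk : 1 ≤ k) (hn : 3 ≤ n) (hkn : k.Coprime n) :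
    ∃ z a : Fin k → ℂ, IsBasicSetup k n z ∧ IsMarking k n z a := by
  have hpi := Real.pi_pos
  have hn3 : (3 : ℝ) ≤ n := by exact_mod_cast hn
  have hk0 : (k : ℂ) ≠ 0 := by
    have : k ≠ 0 := by omega
    exact_mod_cast this
  have hn0 : (n : ℂ) ≠ 0 := by
    have : n ≠ 0 := by omega
    exact_mod_cast this
  have hpn : π / n ≤ π / 3 := div_le_div_of_nonneg_left hpi.le (by norm_num) hn3
  have hpn0 : 0 < π / n := by positivity
  have hsn : 0 < Real.sin (π / n) := Real.sin_pos_of_pos_of_lt_pi hpn0 (by linarith)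
  set R : ℂ := ((1 / (2 * Real.sin (π / n)) : ℝ) : ℂ) with hR
  have hRn : ‖R‖ = 1 / (2 * Real.sin (π / n)) := by
    rw [hR, Complex.norm_real, Real.norm_eq_abs, abs_of_pos (by positivity)]
  obtain ⟨u, v, huv⟩ : ∃ u v : ℤ, u * k + v * n = 1 :=
    Nat.isCoprime_iff_coprime.2 hkn
  set z : Fin k → ℂ := fun i => R * Complex.exp (2 * π * ((i : ℕ) : ℤ) / k * Complex.I) with hz
  have hzv : ∀ i, z i ∈ regVertices k R := fun i => ⟨((i : ℕ) : ℤ), rfl⟩
  refine ⟨z, z, ⟨fun i => ?_, R, ?_⟩, fun i => ⟨0, by simp⟩, R, ?_⟩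
  · rw [norm_of_mem (hzv i), hRn]
  · ext x
    rw [mem_iUnion]
    constructor
    · rintro ⟨i, j, rfl⟩
      refine ⟨n * ((i : ℕ) : ℤ) + k * j, ?_⟩
      rw [hz]
      simp only
      rw [mul_assoc, ← Complex.exp_add]
      congr 2
      push_cast
      field_simp
    · rintro ⟨m, rfl⟩
      have hkz : (0 : ℤ) < k := by exact_mod_cast hk
      have h0 := Int.emod_nonneg (v * m) hkz.ne'
      have h1 := Int.emod_lt_of_pos (v * m) hkz
      have h2 := Int.emod_add_mul_ediv (v * m) k
      refine ⟨⟨(v * m % k).toNat, by omega⟩, u * m + v * m / k * n, ?_⟩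
      rw [hz]
      simp only
      rw [Int.toNat_of_nonneg h0, mul_assoc R (Complex.exp _), ← Complex.exp_add]
      congr 2
      have h3 : ((m : ℤ) : ℂ) = n * ((v * m % k : ℤ) : ℂ) + k * ((u * m + v * m / k * n : ℤ) : ℂ) := by
        have : m = n * (v * m % k) + k * (u * m + v * m / k * n) := by
          linear_combination (-m) * huv + (-n : ℤ) * h2
        exact_mod_cast this
      rw [h3]
      push_cast
      field_simp
  · ext x
    constructor
    · rintro ⟨i, rfl⟩; exact hzv i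
    · rintro ⟨m, rfl⟩
      have hkz : (0 : ℤ) < k := by exact_mod_cast hk
      have h0 := Int.emod_nonneg m hkz.ne'
      have h1 := Int.emod_lt_of_pos m hkz
      have h2 := Int.emod_add_mul_ediv m k
      refine ⟨⟨(m % k).toNat, by omega⟩, ?_⟩
      rw [hz]
      simp only
      rw [Int.toNat_of_nonneg h0]
      congr 1
      rw [Complex.exp_eq_exp_iff_exists_int]
      refine ⟨-(m / k), ?_⟩
      have h3 : ((m : ℤ) : ℂ) = ((m % k : ℤ) : ℂ) + k * ((m / k : ℤ) : ℂ) := by exact_mod_cast h2.symm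
      rw [h3]
      push_cast
      field_simp
      ring

end Pool.Agent.R165.Poly
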