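import Pool.Agent.R165.Poly.Sector

/-! The structure of a union of `k` perturbed concentric regular `n`-gons. -/

set_option autoImplicit false

open MeasureTheory Metric Set
open scoped Real ENNReal

namespace Pool.Agent.R165.Poly

/-- the half step -/
noncomputable def dl (k n : ℕ) : ℝ := π / (k * n)

/-- the angle of the `m`-th normal -/
noncomputable def ph (k n : ℕ) (m : ℤ) : ℝ := (2 * m + k) * dl k n

/-- the union of the polygons with support numbers `h` -/
def U (k n : ℕ) (h : ℤ → ℝ) : Set ℂ :=
  {x | ∃ c : ℤ, ∀ i : ℤ, (x * Complex.exp (-(ph k n (c + i * k) : ℝ) * Complex.I)).re ≤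
    h (c + i * k)}

/-- direction of the crossing of two lines -/
noncomputable def cr (a b t : ℝ) : ℝ := Real.arctan ((a * Real.cos t - b) / (a * Real.sin t))

/-- smallness of the perturbation -/
structure Small (k n : ℕ) (ε : ℝ) : Prop where
  pos : 0 ≤ ε
  lt : ε < Real.cos (π / n)
  s1 : (Real.cos (π / n) + ε) * Real.cos (3 * (π / n) - 5 / 4 * dl k n) ≤
    (Real.cos (π / n) - ε) * Real.cos (π / n + dl k n / 4)
  s2 : 2 ≤ k → (Real.cos (π / n) + ε) * Real.cos ((k - 5 / 4) * dl k n) ≤
    (Real.cos (π / n) - ε) * Real.cos ((k - 7 / 4) * dl k n)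
  s3 : ∀ a b, |a - Real.cos (π / n)| ≤ ε → |b - Real.cos (π / n)| ≤ ε →
    |cr a b (2 * k * dl k n) + k * dl k n| < dl k n / 4
  s4 : 2 ≤ k → ∀ a b, |a - Real.cos (π / n)| ≤ ε → |b - Real.cos (π / n)| ≤ ε →
    |cr a b (2 * (k - 1) * dl k n) + (k - 1) * dl k n| < dl k n / 4

/-- admissible support numbers -/
structure Adm (k n : ℕ) (ε : ℝ) (h : ℤ → ℝ) : Prop where
  near : ∀ l, |h l - Real.cos (π / n)| ≤ ε
  per : ∀ l, h (l + k * n) = h l

noncomputable def vv (k n : ℕ) (h : ℤ → ℝ) (m : ℤ) : ℝ :=
  ph k n m + cr (h m) (h (m - k)) (2 * k * dl k n)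

noncomputable def ww (k n : ℕ) (h : ℤ → ℝ) (m : ℤ) : ℝ :=
  ph k n m + cr (h m) (h (m + 1 - k)) (2 * (k - 1) * dl k n)

lemma re_exp (s θ φ : ℝ) :
    ((s : ℂ) * Complex.exp (θ * Complex.I) * Complex.exp (-(φ : ℝ) * Complex.I)).re =
      s * Real.cos (θ - φ) := by
  rw [mul_assoc, ← Complex.exp_add, ← add_mul, Complex.re_ofReal_mul]
  have : ((θ : ℂ) + -(φ : ℂ)) = ((θ - φ : ℝ) : ℂ) := by push_cast; ring
  rw [this, Complex.exp_ofReal_mul_I_re]

section

variable {k n : ℕ} {ε : ℝ} {h : ℤ → ℝ}

lemma dl_pos (hk : 1 ≤ k) (hn : 3 ≤ n) : 0 < dl k n := by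
  unfold dl
  have : (0 : ℝ) < k := by exact_mod_cast hk
  have : (0 : ℝ) < n := by exact_mod_cast (by omega : 0 < n)
  positivity

lemma k_dl (hk : 1 ≤ k) (hn : 3 ≤ n) : k * dl k n = π / n := by
  unfold dl
  have : (0 : ℝ) < k := by exact_mod_cast hk
  have : (0 : ℝ) < n := by exact_mod_cast (by omega : 0 < n)
  field_simp

lemma kn_dl (hk : 1 ≤ k) (hn : 3 ≤ n) : k * n * dl k n = π := by
  unfold dl
  have : (0 : ℝ) < k := by exact_mod_cast hk
  have : (0 : ℝ) < n := by exact_mod_cast (by omega : 0 < n)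
  field_simp

lemma Adm.pos (hs : Small k n ε) (ha : Adm k n ε h) (l : ℤ) : 0 < h l := by
  have := ha.near l
  rw [abs_le] at this
  have := hs.lt
  linarith

lemma Adm.per_mul (ha : Adm k n ε h) (l q : ℤ) : h (l + q * (k * n)) = h l := by
  induction q using Int.induction_on with
  | zero => simp
  | succ q ih =>
    rw [← ih, ← ha.per (l + q * (k * n))]
    congr 1; ring
  | pred q ih =>
    rw [← ih, ← ha.per (l + (-(q : ℤ) - 1) * (k * n))]
    congr 1; ring

lemma ph_add (m i : ℤ) : ph k n (m + i) = ph k n m + 2 * i * dl k n := by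
  unfold ph; push_cast; ring

lemma cr_cross {a b t x : ℝ} (ha : 0 < a) (ht : 0 < Real.sin t)
    (hx : 0 < Real.cos x) : b * Real.cos x - a * Real.cos (x + t) =
      Real.cos x * Real.sin t * (a * (Real.tan x - (a * Real.cos t - b) / (a * Real.sin t))) := by
  rw [Real.cos_add, Real.tan_eq_sin_div_cos]
  field_simp
  ring

lemma cross_ge {a b t x : ℝ} (ha : 0 < a) (ht : 0 < Real.sin t)
    (hx1 : -(π / 2) < x) (hx2 : x < π / 2) (h : cr a b t ≤ x) :
    a * Real.cos (x + t) ≤ b * Real.cos x := by
  have hc : 0 < Real.cos x := Real.cos_pos_of_mem_Ioo ⟨hx1, hx2⟩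
  have h1 := cr_cross (b := b) ha ht hc
  have h2 : (a * Real.cos t - b) / (a * Real.sin t) ≤ Real.tan x := by
    have := Real.strictMonoOn_tan.monotoneOn
      (Real.arctan_mem_Ioo ((a * Real.cos t - b) / (a * Real.sin t))) ⟨hx1, hx2⟩ h
    rwa [Real.tan_arctan] at this
  have h3 : 0 ≤ Real.cos x * Real.sin t *
      (a * (Real.tan x - (a * Real.cos t - b) / (a * Real.sin t))) := by
    have : 0 ≤ Real.tan x - (a * Real.cos t - b) / (a * Real.sin t) := by linarith
    positivity
  linarith

lemma cross_le {a b t x : ℝ} (ha : 0 < a) (ht : 0 < Real.sin t)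
    (hx1 : -(π / 2) < x) (hx2 : x < π / 2) (h : x ≤ cr a b t) :
    b * Real.cos x ≤ a * Real.cos (x + t) := by
  have hc : 0 < Real.cos x := Real.cos_pos_of_mem_Ioo ⟨hx1, hx2⟩
  have h1 := cr_cross (b := b) ha ht hc
  have h2 : Real.tan x ≤ (a * Real.cos t - b) / (a * Real.sin t) := by
    have := Real.strictMonoOn_tan.monotoneOn ⟨hx1, hx2⟩
      (Real.arctan_mem_Ioo ((a * Real.cos t - b) / (a * Real.sin t))) h
    rwa [Real.tan_arctan] at this
  have h3 : 0 ≤ Real.cos x * Real.sin t *
      (a * ((a * Real.cos t - b) / (a * Real.sin t) - Real.tan x)) := by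
    have : 0 ≤ (a * Real.cos t - b) / (a * Real.sin t) - Real.tan x := by linarith
    positivity
  linarith

/-- the direction of the crossing seen from the other line -/
lemma cr_dual {a b t : ℝ} (ha : 0 < a) (hb : 0 < b) (ht : 0 < Real.sin t) (ht0 : 0 < t)
    (hlt : cr a b t + t < π / 2) : cr a b t + t = -cr b a t := by
  have h0 : -(π / 2) < cr a b t := Real.neg_pi_div_two_lt_arctan _
  have h1 : cr a b t + t = Real.arctan (Real.tan (cr a b t + t)) :=
    (Real.arctan_tan (by linarith) hlt).symm
  rw [h1]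
  unfold cr
  rw [← Real.arctan_neg]
  congr 1
  have hc : 0 < Real.cos (Real.arctan ((a * Real.cos t - b) / (a * Real.sin t))) :=
    Real.cos_arctan_pos _
  have hc2 : 0 < Real.cos (Real.arctan ((a * Real.cos t - b) / (a * Real.sin t)) + t) :=
    Real.cos_pos_of_mem_Ioo ⟨by unfold cr at h0; linarith, hlt⟩
  have hts : Real.sin (Real.arctan ((a * Real.cos t - b) / (a * Real.sin t))) =
      (a * Real.cos t - b) / (a * Real.sin t) *
        Real.cos (Real.arctan ((a * Real.cos t - b) / (a * Real.sin t))) := by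
    conv_rhs => rw [← Real.tan_arctan ((a * Real.cos t - b) / (a * Real.sin t))]
    rw [Real.arctan_tan (Real.neg_pi_div_two_lt_arctan _) (Real.arctan_lt_pi_div_two _),
      Real.tan_mul_cos hc.ne']
  rw [Real.tan_eq_sin_div_cos, div_eq_iff hc2.ne', Real.sin_add, Real.cos_add, hts]
  generalize Real.cos (Real.arctan ((a * Real.cos t - b) / (a * Real.sin t))) = c
  have hsc := Real.sin_sq_add_cos_sq t
  have e : (a * Real.cos t - b) / (a * Real.sin t) * c * Real.cos t + c * Real.sin t =
      c * (a - b * Real.cos t) / (a * Real.sin t) := by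
    field_simp
    linear_combination (c * a) * hsc
  have e2 : c * Real.cos t - (a * Real.cos t - b) / (a * Real.sin t) * c * Real.sin t =
      c * b / a := by
    field_simp
    ring
  rw [e, e2]
  field_simp
  ring

variable (hk : 1 ≤ k) (hn : 3 ≤ n) (hs : Small k n ε)
include hk hn hs

lemma sin_al : 0 < Real.sin (2 * k * dl k n) := by
  have h1 := k_dl hk hn
  have h2 : (3 : ℝ) ≤ n := by exact_mod_cast hn
  have hd := dl_pos hk hn
  have h3 : 2 * k * dl k n = 2 * (π / n) := by linarith
  rw [h3]
  apply Real.sin_pos_of_pos_of_lt_pi (by positivity)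
  rw [mul_div_assoc', div_lt_iff₀ (by linarith)]
  nlinarith [Real.pi_pos]

lemma pn_le : π / n ≤ π / 3 := by
  have h2 : (3 : ℝ) ≤ n := by exact_mod_cast hn
  exact div_le_div_of_nonneg_left Real.pi_pos.le (by norm_num) h2

lemma vv_near (ha : Adm k n ε h) (m : ℤ) : |vv k n h m - 2 * m * dl k n| < dl k n / 4 := by
  have := hs.s3 (h m) (h (m - k)) (ha.near _) (ha.near _)
  unfold vv ph
  have e : (2 * (m : ℝ) + k) * dl k n + cr (h m) (h (m - k)) (2 * k * dl k n) - 2 * m * dl k n =
    cr (h m) (h (m - k)) (2 * k * dl k n) + k * dl k n := by ring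
  rw [e]; exact this

lemma ww_near (ha : Adm k n ε h) (m : ℤ) :
    |ww k n h m - (2 * m + 1) * dl k n| < dl k n / 4 := by
  have hd := dl_pos hk hn
  unfold ww ph
  rcases Nat.lt_or_ge k 2 with h1 | h2
  · have hk1 : k = 1 := by omega
    subst hk1
    have : cr (h m) (h (m + 1 - (1 : ℕ))) (2 * (((1 : ℕ) : ℝ) - 1) * dl 1 n) = 0 := by
      unfold cr; simp
    rw [this]
    have e : (2 * (m : ℝ) + ((1 : ℕ) : ℝ)) * dl 1 n + 0 - (2 * m + 1) * dl 1 n = 0 := by
      push_cast; ring
    rw [e, abs_zero]; linarith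
  · have := hs.s4 h2 (h m) (h (m + 1 - k)) (ha.near _) (ha.near _)
    have e : (2 * (m : ℝ) + k) * dl k n + cr (h m) (h (m + 1 - k)) (2 * (k - 1) * dl k n) -
      (2 * m + 1) * dl k n =
      cr (h m) (h (m + 1 - k)) (2 * (k - 1) * dl k n) + (k - 1) * dl k n := by ring
    rw [e]; exact this

/-- **First type of edge.** -/
theorem first_piece (ha : Adm k n ε h) (m : ℤ) {θ s : ℝ} (hs0 : 0 ≤ s)
    (h1 : vv k n h m ≤ θ) (h2 : θ ≤ ww k n h m) :
    (s : ℂ) * Complex.exp (θ * Complex.I) ∈ U k n h ↔ s * Real.cos (θ - ph k n m) ≤ h m := by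
  have hd := dl_pos hk hn
  have hkd := k_dl hk hn
  have hknd := kn_dl hk hn
  have hk1 : (1 : ℝ) ≤ k := by exact_mod_cast hk
  have hn3 : (3 : ℝ) ≤ n := by exact_mod_cast hn
  have hpn := pn_le hk hn hs
  have hpi := Real.pi_pos
  have hv := vv_near hk hn hs ha m
  have hw := ww_near hk hn hs ha m
  rw [abs_lt] at hv hw
  obtain ⟨x, hx⟩ : ∃ x, x = θ - ph k n m := ⟨_, rfl⟩
  have hx1 : -((k + 1 / 4) * dl k n) ≤ x := by
    rw [hx]; unfold ph; linarith [hv.1]
  have hx2 : x ≤ -((k - 5 / 4) * dl k n) := by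
    rw [hx]; unfold ph; linarith [hw.2]
  -- bounds on angles
  have hdk : dl k n ≤ π / 3 := by
    have : dl k n ≤ k * dl k n := le_mul_of_one_le_left hd.le hk1
    linarith
  have hdK : dl k n ≤ k * dl k n := le_mul_of_one_le_left hd.le hk1
  have hb1 : (k + 1 / 4) * dl k n < π / 2 := by linarith
  have hxl : -(π / 2) < x := by linarith
  have hxu : x < π / 2 := by linarith
  have hcx : 0 < Real.cos x := Real.cos_pos_of_mem_Ioo ⟨hxl, hxu⟩
  have hcr1 : cr (h m) (h (m - k)) (2 * k * dl k n) ≤ x := by
    rw [hx]; unfold vv at h1; linarith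
  have hcr2 : x ≤ cr (h m) (h (m + 1 - k)) (2 * (k - 1) * dl k n) := by
    rw [hx]; unfold ww at h2; linarith
  have hr := hs.lt
  have he := hs.pos
  have hlow : ∀ l, Real.cos (π / n) - ε ≤ h l := fun l => by
    have := ha.near l; rw [abs_le] at this; linarith
  have hup : ∀ l, h l ≤ Real.cos (π / n) + ε := fun l => by
    have := ha.near l; rw [abs_le] at this; linarith
  have hK2 : Real.cos (π / n + dl k n / 4) ≤ Real.cos x := by
    rw [← Real.cos_abs x]
    apply Real.cos_le_cos_of_nonneg_of_le_pi (abs_nonneg _) (by linarith)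
    rw [abs_le]
    constructor
    · linarith
    · linarith
  have hK2p : 0 < Real.cos (π / n + dl k n / 4) :=
    Real.cos_pos_of_mem_Ioo ⟨by linarith, by linarith⟩
  rw [← hx]
  constructor
  · rintro ⟨c, hc⟩
    -- the representative in `(m - k, m]`
    have hkz : (0 : ℤ) < k := by exact_mod_cast hk
    obtain ⟨j, hj⟩ : ∃ j, j = (m - c) % k := ⟨_, rfl⟩
    have hj0 : 0 ≤ j := by rw [hj]; exact Int.emod_nonneg _ hkz.ne'
    have hjk : j < k := by rw [hj]; exact Int.emod_lt_of_pos _ hkz
    have hcj := hc ((m - c) / k)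
    have hl : c + (m - c) / k * k = m - j := by
      have := Int.emod_add_mul_ediv (m - c) k
      rw [hj]; linarith
    rw [hl, re_exp] at hcj
    have hph : θ - ph k n (m - j) = x + 2 * j * dl k n := by
      rw [hx, sub_eq_add_neg m j, ph_add]; push_cast; ring
    rw [hph] at hcj
    rcases eq_or_lt_of_le hj0 with h0 | h0
    · rw [← h0] at hcj; simpa using hcj
    · have hk2 : 2 ≤ k := by
        have : (1 : ℤ) < k := by omega
        exact_mod_cast this
      have hk2' : (2 : ℝ) ≤ k := by exact_mod_cast hk2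
      have hk2d : 2 * dl k n ≤ k * dl k n := mul_le_mul_of_nonneg_right hk2' hd.le
      rcases eq_or_lt_of_le (by omega : j ≤ k - 1) with h3 | h3
      · -- the crossing line
        have hjr : (j : ℝ) = k - 1 := by exact_mod_cast h3
        have hmj : m - j = m + 1 - k := by omega
        rw [hmj, hjr] at hcj
        have hsb : 0 < Real.sin (2 * (k - 1) * dl k n) := by
          apply Real.sin_pos_of_pos_of_lt_pi
          · have : (0 : ℝ) < k - 1 := by linarith
            positivity
          · linarith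
        have hcr := cross_le (ha.pos hs m) hsb hxl hxu hcr2
        have hcp : 0 < Real.cos (x + 2 * (k - 1) * dl k n) := by
          apply Real.cos_pos_of_mem_Ioo
          constructor
          · linarith
          · linarith
        have e1 : s * Real.cos x * Real.cos (x + 2 * (k - 1) * dl k n) ≤
            h m * Real.cos (x + 2 * (k - 1) * dl k n) := by
          calc s * Real.cos x * Real.cos (x + 2 * (k - 1) * dl k n)
              = (s * Real.cos (x + 2 * (k - 1) * dl k n)) * Real.cos x := by ring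
            _ ≤ h (m + 1 - k) * Real.cos x := mul_le_mul_of_nonneg_right hcj hcx.le
            _ ≤ h m * Real.cos (x + 2 * (k - 1) * dl k n) := hcr
        exact le_of_mul_le_mul_right e1 hcp
      · -- the other lines
        have hj1 : (1 : ℝ) ≤ j := by exact_mod_cast h0
        have hj2 : (j : ℝ) ≤ k - 2 := by
          have : j ≤ k - 2 := by omega
          exact_mod_cast this
        have hj1d : dl k n ≤ j * dl k n := le_mul_of_one_le_left hd.le hj1
        have hj2d : j * dl k n ≤ (k - 2) * dl k n := mul_le_mul_of_nonneg_right hj2 hd.le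
        have hK4 : Real.cos ((k - 7 / 4) * dl k n) ≤ Real.cos (x + 2 * j * dl k n) := by
          rw [← Real.cos_abs (x + 2 * j * dl k n)]
          apply Real.cos_le_cos_of_nonneg_of_le_pi (abs_nonneg _) (by linarith)
          rw [abs_le]
          constructor <;> linarith
        have hK4p : 0 < Real.cos ((k - 7 / 4) * dl k n) := by
          apply Real.cos_pos_of_mem_Ioo
          constructor <;> linarith
        have hK3 : Real.cos x ≤ Real.cos ((k - 5 / 4) * dl k n) := by
          rw [← Real.cos_neg x]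
          apply Real.cos_le_cos_of_nonneg_of_le_pi
          · have : (0 : ℝ) ≤ k - 5 / 4 := by linarith
            positivity
          · linarith
          · linarith
        have hK3p : 0 ≤ Real.cos ((k - 5 / 4) * dl k n) := hcx.le.trans hK3
        have e1 : s * Real.cos ((k - 7 / 4) * dl k n) ≤ Real.cos (π / n) + ε :=
          (mul_le_mul_of_nonneg_left hK4 hs0).trans (hcj.trans (hup _))
        have e2 : s * Real.cos ((k - 5 / 4) * dl k n) * Real.cos ((k - 7 / 4) * dl k n) ≤
            (Real.cos (π / n) - ε) * Real.cos ((k - 7 / 4) * dl k n) := by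
          calc s * Real.cos ((k - 5 / 4) * dl k n) * Real.cos ((k - 7 / 4) * dl k n)
              = (s * Real.cos ((k - 7 / 4) * dl k n)) * Real.cos ((k - 5 / 4) * dl k n) := by ring
            _ ≤ (Real.cos (π / n) + ε) * Real.cos ((k - 5 / 4) * dl k n) :=
                mul_le_mul_of_nonneg_right e1 hK3p
            _ ≤ _ := hs.s2 hk2
        have e3 := le_of_mul_le_mul_right e2 hK4p
        exact (mul_le_mul_of_nonneg_left hK3 hs0).trans (e3.trans (hlow m))
  · intro hxm
    refine ⟨m, fun i => ?_⟩
    rw [re_exp]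
    -- reduce the index modulo `n`
    have hnz : (0 : ℤ) < n := by exact_mod_cast (by omega : 0 < n)
    obtain ⟨j, hj⟩ : ∃ j, j = i % n := ⟨_, rfl⟩
    have hj0 : 0 ≤ j := by rw [hj]; exact Int.emod_nonneg _ hnz.ne'
    have hjn : j < n := by rw [hj]; exact Int.emod_lt_of_pos _ hnz
    have hi : i = j + (i / n) * n := by
      have := Int.emod_add_mul_ediv i n
      rw [hj]; linarith
    generalize i / (n : ℤ) = q at hi
    subst hi
    have hh : h (m + (j + q * n) * k) = h (m + j * k) := by
      rw [← ha.per_mul (m + j * k) q]; congr 1; ring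
    have hang : Real.cos (θ - ph k n (m + (j + q * n) * k)) =
        Real.cos (x - 2 * (j * k) * dl k n) := by
      rw [ph_add, ← Real.cos_add_int_mul_two_pi (θ - (ph k n m + _)) q]
      congr 1
      rw [hx, ← hknd]; push_cast; ring
    rw [hh, hang]
    rcases eq_or_lt_of_le hj0 with h0 | h0
    · rw [← h0]; simpa using hxm
    · rcases eq_or_lt_of_le (by omega : j ≤ n - 1) with h3 | h3
      · -- the line `m - k`
        have hh2 : h (m + j * k) = h (m - k) := by
          rw [← ha.per (m - k)]; congr 1; rw [h3]; ring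
        have hang2 : Real.cos (x - 2 * (j * k) * dl k n) = Real.cos (x + 2 * k * dl k n) := by
          rw [← Real.cos_add_two_pi]
          congr 1
          have : (j : ℝ) = n - 1 := by exact_mod_cast h3
          rw [this, ← hknd]; ring
        rw [hh2, hang2]
        have hcr := cross_ge (ha.pos hs m) (sin_al hk hn hs) hxl hxu hcr1
        rcases le_or_gt (Real.cos (x + 2 * k * dl k n)) 0 with h4 | h4
        · exact (mul_nonpos_of_nonneg_of_nonpos hs0 h4).trans (ha.pos hs _).le
        · have e1 : s * Real.cos (x + 2 * k * dl k n) * Real.cos x ≤ h (m - k) * Real.cos x := by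
            calc s * Real.cos (x + 2 * k * dl k n) * Real.cos x
                = (s * Real.cos x) * Real.cos (x + 2 * k * dl k n) := by ring
              _ ≤ h m * Real.cos (x + 2 * k * dl k n) := mul_le_mul_of_nonneg_right hxm h4.le
              _ ≤ _ := hcr
          exact le_of_mul_le_mul_right e1 hcx
      · have hj1 : (1 : ℝ) ≤ j := by exact_mod_cast h0
        have hj2 : (j : ℝ) ≤ n - 2 := by
          have : j ≤ n - 2 := by omega
          exact_mod_cast this
        have hjk1 : (k : ℝ) ≤ j * k := le_mul_of_one_le_left (by linarith) hj1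
        have hjk2 : (j : ℝ) * k ≤ (n - 2) * k := mul_le_mul_of_nonneg_right hj2 (by linarith)
        have hjk3 : π / n ≤ j * k * dl k n := by
          rw [← hkd]; exact mul_le_mul_of_nonneg_right hjk1 hd.le
        have hjk4 : j * k * dl k n ≤ π - 2 * (π / n) := by
          have := mul_le_mul_of_nonneg_right hjk2 hd.le
          rw [← hkd]
          calc (j : ℝ) * k * dl k n ≤ (n - 2) * k * dl k n := this
            _ = k * n * dl k n - 2 * (k * dl k n) := by ring
            _ = _ := by rw [hknd]
        have hK1 : Real.cos (x - 2 * (j * k) * dl k n) ≤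
            Real.cos (3 * (π / n) - 5 / 4 * dl k n) := by
          have hy1 : x - 2 * (j * k) * dl k n ≤ -(3 * (π / n) - 5 / 4 * dl k n) := by
            linarith
          have hy2 : -(2 * π) + (3 * (π / n) - 5 / 4 * dl k n) ≤ x - 2 * (j * k) * dl k n := by
            linarith
          have hA0 : 0 ≤ 3 * (π / n) - 5 / 4 * dl k n := by linarith
          rcases le_total (-π) (x - 2 * (j * k) * dl k n) with h5 | h5
          · rw [← Real.cos_neg (x - 2 * (j * k) * dl k n)]
            apply Real.cos_le_cos_of_nonneg_of_le_pi hA0 (by linarith) (by linarith)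
          · rw [← Real.cos_add_two_pi (x - 2 * (j * k) * dl k n)]
            apply Real.cos_le_cos_of_nonneg_of_le_pi hA0 (by linarith) (by linarith)
        have e0 : s * Real.cos (π / n + dl k n / 4) ≤ Real.cos (π / n) + ε :=
          (mul_le_mul_of_nonneg_left hK2 hs0).trans (hxm.trans (hup _))
        rcases le_or_gt (Real.cos (3 * (π / n) - 5 / 4 * dl k n)) 0 with h4 | h4
        · exact (mul_nonpos_of_nonneg_of_nonpos hs0 (hK1.trans h4)).trans (ha.pos hs _).le
        · have e2 : s * Real.cos (3 * (π / n) - 5 / 4 * dl k n) *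
              Real.cos (π / n + dl k n / 4) ≤
              (Real.cos (π / n) - ε) * Real.cos (π / n + dl k n / 4) := by
            calc s * Real.cos (3 * (π / n) - 5 / 4 * dl k n) * Real.cos (π / n + dl k n / 4)
                = (s * Real.cos (π / n + dl k n / 4)) *
                  Real.cos (3 * (π / n) - 5 / 4 * dl k n) := by ring
              _ ≤ (Real.cos (π / n) + ε) * Real.cos (3 * (π / n) - 5 / 4 * dl k n) :=
                  mul_le_mul_of_nonneg_right e0 h4.le
              _ ≤ _ := hs.s1
          have e3 := le_of_mul_le_mul_right e2 hK2p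
          exact (mul_le_mul_of_nonneg_left hK1 hs0).trans (e3.trans (hlow _))

end

end Pool.Agent.R165.Poly
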