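import Pool.Agent.R165.Poly.Refl

/-! The total area and perimeter. -/

set_option autoImplicit false

open MeasureTheory Metric Set
open scoped Real ENNReal

namespace Pool.Agent.R165.Poly

variable {k n : ℕ} {ε : ℝ} {h : ℤ → ℝ}

/-- relative position of a crossing on a line -/
noncomputable def xx (a b t : ℝ) : ℝ := (a * Real.cos t - b) / (a * Real.sin t)

lemma tan_cr (a b t : ℝ) : Real.tan (cr a b t) = xx a b t := by
  unfold cr xx; rw [Real.tan_arctan]

section

variable (hk : 1 ≤ k) (hn : 3 ≤ n) (hs : Small k n ε)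
include hk hn hs

lemma vv_lt_ww (ha : Adm k n ε h) (m : ℤ) : vv k n h m < ww k n h m := by
  have hv := vv_near hk hn hs ha m
  have hw := ww_near hk hn hs ha m
  have hd := dl_pos hk hn
  rw [abs_lt] at hv hw
  linarith

lemma ww_lt_vv (ha : Adm k n ε h) (m : ℤ) : ww k n h m < vv k n h (m + 1) := by
  have hv := vv_near hk hn hs ha (m + 1)
  have hw := ww_near hk hn hs ha m
  have hd := dl_pos hk hn
  rw [abs_lt] at hv hw
  push_cast at hv
  linarith

lemma vv_mono (ha : Adm k n ε h) {a b : ℕ} (hab : a ≤ b) : vv k n h a ≤ vv k n h b := by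
  induction b, hab using Nat.le_induction with
  | base => exact le_rfl
  | succ b _ ih =>
    have h1 := vv_lt_ww hk hn hs ha b
    have h2 := ww_lt_vv hk hn hs ha b
    push_cast
    linarith

lemma vv_per (ha : Adm k n ε h) : vv k n h ((k * n : ℕ) : ℤ) = vv k n h ((0 : ℕ) : ℤ) + 2 * π := by
  have hknd := kn_dl hk hn
  unfold vv
  have e1 : h ((k * n : ℕ) : ℤ) = h ((0 : ℕ) : ℤ) := by
    rw [← ha.per ((0 : ℕ) : ℤ)]; congr 1; push_cast; ring
  have e2 : h (((k * n : ℕ) : ℤ) - k) = h (((0 : ℕ) : ℤ) - k) := by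
    rw [← ha.per (((0 : ℕ) : ℤ) - k)]; congr 1; push_cast; ring
  have e3 : ph k n ((k * n : ℕ) : ℤ) = ph k n ((0 : ℕ) : ℤ) + 2 * π := by
    unfold ph; rw [← hknd]; push_cast; ring
  rw [e1, e2, e3]; ring

lemma measure_total (ha : Adm k n ε h) (μ : Measure ℂ) (X : Set ℂ) {M : ℕ} (hM : M ≤ k * n) :
    μ (X ∩ sector (vv k n h ((0 : ℕ) : ℤ)) (vv k n h (M : ℤ))) =
      ∑ m ∈ Finset.range M, (μ (X ∩ sector (vv k n h m) (ww k n h m)) +
        μ (X ∩ sector (ww k n h m) (vv k n h (m + 1)))) := by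
  induction M with
  | zero =>
    have : sector (vv k n h ((0 : ℕ) : ℤ)) (vv k n h ((0 : ℕ) : ℤ)) = ∅ := by
      ext z
      simp only [sector, mem_setOf_eq, mem_empty_iff_false, iff_false]
      rintro ⟨s, θ, _, h1, h2, _⟩
      linarith
    rw [this]; simp
  | succ M ih =>
    have h1 := vv_lt_ww hk hn hs ha M
    have h2 := ww_lt_vv hk hn hs ha M
    have h3 := vv_mono hk hn hs ha (Nat.zero_le M)
    have h4 := vv_mono hk hn hs ha hM
    rw [vv_per hk hn hs ha] at h4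
    push_cast at h4 ⊢
    rw [Finset.sum_range_succ, ← ih (by omega)]
    rw [← measure_split μ X h1.le h2.le (by push_cast at h3; linarith)]
    push_cast at h3 ⊢
    exact measure_split μ X h3 (h1.le.trans h2.le) (by linarith)

lemma angle_facts (ha : Adm k n ε h) (m : ℤ) :
    -(π / 2) < ww k n h m - ph k n (m + 1 - k) ∧ vv k n h (m + 1) - ph k n (m + 1 - k) < π / 2 := by
  have hv := vv_near hk hn hs ha (m + 1)
  have hw := ww_near hk hn hs ha m
  have hd := dl_pos hk hn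
  have hkd := k_dl hk hn
  have hpn := pn_le hk hn hs
  have hpi := Real.pi_pos
  have hk1 : (1 : ℝ) ≤ k := by exact_mod_cast hk
  have hdK : dl k n ≤ k * dl k n := le_mul_of_one_le_left hd.le hk1
  rw [abs_lt] at hv hw
  unfold ph
  push_cast at hv ⊢
  constructor <;> linarith

lemma tan1 (m : ℤ) : Real.tan (vv k n h m - ph k n m) = xx (h m) (h (m - k)) (2 * k * dl k n) := by
  unfold vv; rw [add_sub_cancel_left, tan_cr]

lemma tan2 (m : ℤ) :
    Real.tan (ww k n h m - ph k n m) = xx (h m) (h (m + 1 - k)) (2 * (k - 1) * dl k n) := by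
  unfold ww; rw [add_sub_cancel_left, tan_cr]

lemma tan3 (ha : Adm k n ε h) (m : ℤ) : Real.tan (vv k n h (m + 1) - ph k n (m + 1 - k)) =
    -xx (h (m + 1 - k)) (h (m + 1)) (2 * k * dl k n) := by
  have h1 := tan1 (h := refl k h) hk hn hs (-m - 1)
  rw [vv_refl hk hn hs ha] at h1
  have e2 : refl k h (-m - 1) = h (m + 1 - k) := by unfold refl; congr 1; ring
  have e3 : refl k h (-m - 1 - k) = h (m + 1) := by unfold refl; congr 1; ring
  have e4 : ph k n (-m - 1) = -ph k n (m + 1 - k) := by rw [← ph_neg]; congr 1; ring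
  rw [e2, e3, e4] at h1
  rw [← h1, ← Real.tan_neg]
  congr 1; ring

lemma tan4 (ha : Adm k n ε h) (m : ℤ) : Real.tan (ww k n h m - ph k n (m + 1 - k)) =
    -xx (h (m + 1 - k)) (h m) (2 * (k - 1) * dl k n) := by
  have h1 := tan2 (h := refl k h) hk hn hs (-m - 1)
  rw [ww_refl hk hn hs ha] at h1
  have e2 : refl k h (-m - 1) = h (m + 1 - k) := by unfold refl; congr 1; ring
  have e3 : refl k h (-m - 1 + 1 - k) = h m := by unfold refl; congr 1; ring
  have e4 : ph k n (-m - 1) = -ph k n (m + 1 - k) := by rw [← ph_neg]; congr 1; ring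
  rw [e2, e3, e4] at h1
  rw [← h1, ← Real.tan_neg]
  congr 1; ring

lemma inter1 (ha : Adm k n ε h) (m : ℤ) : U k n h ∩ sector (vv k n h m) (ww k n h m) =
    {z : ℂ | ∃ s θ : ℝ, 0 < s ∧ vv k n h m ≤ θ ∧ θ < ww k n h m ∧
      s * Real.cos (θ - ph k n m) ≤ h m ∧ z = s * Complex.exp (θ * Complex.I)} := by
  ext z
  constructor
  · rintro ⟨hz, s, θ, hs0, h1, h2, rfl⟩
    exact ⟨s, θ, hs0, h1, h2, (first_piece hk hn hs ha m hs0.le h1 h2.le).1 hz, rfl⟩
  · rintro ⟨s, θ, hs0, h1, h2, h3, rfl⟩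
    exact ⟨(first_piece hk hn hs ha m hs0.le h1 h2.le).2 h3, s, θ, hs0, h1, h2, rfl⟩

lemma inter2 (ha : Adm k n ε h) (m : ℤ) : U k n h ∩ sector (ww k n h m) (vv k n h (m + 1)) =
    {z : ℂ | ∃ s θ : ℝ, 0 < s ∧ ww k n h m ≤ θ ∧ θ < vv k n h (m + 1) ∧
      s * Real.cos (θ - ph k n (m + 1 - k)) ≤ h (m + 1 - k) ∧
      z = s * Complex.exp (θ * Complex.I)} := by
  ext z
  constructor
  · rintro ⟨hz, s, θ, hs0, h1, h2, rfl⟩
    exact ⟨s, θ, hs0, h1, h2, (second_piece hk hn hs ha m hs0.le h1 h2.le).1 hz, rfl⟩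
  · rintro ⟨s, θ, hs0, h1, h2, h3, rfl⟩
    exact ⟨(second_piece hk hn hs ha m hs0.le h1 h2.le).2 h3, s, θ, hs0, h1, h2, rfl⟩

lemma arct1 (m : ℤ) : -(π / 2) < vv k n h m - ph k n m := by
  unfold vv cr; rw [add_sub_cancel_left]; exact Real.neg_pi_div_two_lt_arctan _

lemma arct2 (m : ℤ) : ww k n h m - ph k n m < π / 2 := by
  unfold ww cr; rw [add_sub_cancel_left]; exact Real.arctan_lt_pi_div_two _

lemma inter3 (ha : Adm k n ε h) (m : ℤ) :
    frontier (U k n h) ∩ sector (vv k n h m) (ww k n h m) =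
    {z : ℂ | ∃ s θ : ℝ, 0 < s ∧ vv k n h m ≤ θ ∧ θ < ww k n h m ∧
      s * Real.cos (θ - ph k n m) = h m ∧ z = s * Complex.exp (θ * Complex.I)} := by
  have hf : ∀ θ s : ℝ, 0 < s → vv k n h m ≤ θ → θ < ww k n h m →
      ((s : ℂ) * Complex.exp (θ * Complex.I) ∈ frontier (U k n h) ↔
        s * Real.cos (θ - ph k n m) = h m) := by
    intro θ s hs0 h1 h2
    have hc : 0 < Real.cos (θ - ph k n m) := Real.cos_pos_of_mem_Ioo
      ⟨by linarith [arct1 (h := h) hk hn hs m], by linarith [arct2 (h := h) hk hn hs m]⟩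
    exact frontier_ray hk hn hs ha hc (ha.pos hs m)
      (fun s hs0 => first_piece hk hn hs ha m hs0 h1 h2.le) hs0
  ext z
  constructor
  · rintro ⟨hz, s, θ, hs0, h1, h2, rfl⟩
    exact ⟨s, θ, hs0, h1, h2, (hf θ s hs0 h1 h2).1 hz, rfl⟩
  · rintro ⟨s, θ, hs0, h1, h2, h3, rfl⟩
    exact ⟨(hf θ s hs0 h1 h2).2 h3, s, θ, hs0, h1, h2, rfl⟩

lemma inter4 (ha : Adm k n ε h) (m : ℤ) :
    frontier (U k n h) ∩ sector (ww k n h m) (vv k n h (m + 1)) =
    {z : ℂ | ∃ s θ : ℝ, 0 < s ∧ ww k n h m ≤ θ ∧ θ < vv k n h (m + 1) ∧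
      s * Real.cos (θ - ph k n (m + 1 - k)) = h (m + 1 - k) ∧
      z = s * Complex.exp (θ * Complex.I)} := by
  obtain ⟨g1, g2⟩ := angle_facts hk hn hs ha m
  have hf : ∀ θ s : ℝ, 0 < s → ww k n h m ≤ θ → θ < vv k n h (m + 1) →
      ((s : ℂ) * Complex.exp (θ * Complex.I) ∈ frontier (U k n h) ↔
        s * Real.cos (θ - ph k n (m + 1 - k)) = h (m + 1 - k)) := by
    intro θ s hs0 h1 h2
    have hc : 0 < Real.cos (θ - ph k n (m + 1 - k)) := Real.cos_pos_of_mem_Ioo
      ⟨by linarith, by linarith⟩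
    exact frontier_ray hk hn hs ha hc (ha.pos hs _)
      (fun s hs0 => second_piece hk hn hs ha m hs0 h1 h2.le) hs0
  ext z
  constructor
  · rintro ⟨hz, s, θ, hs0, h1, h2, rfl⟩
    exact ⟨s, θ, hs0, h1, h2, (hf θ s hs0 h1 h2).1 hz, rfl⟩
  · rintro ⟨s, θ, hs0, h1, h2, h3, rfl⟩
    exact ⟨(hf θ s hs0 h1 h2).2 h3, s, θ, hs0, h1, h2, rfl⟩

lemma le1 (ha : Adm k n ε h) (m : ℤ) : xx (h m) (h (m - k)) (2 * k * dl k n) ≤
    xx (h m) (h (m + 1 - k)) (2 * (k - 1) * dl k n) := by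
  rw [← tan1 hk hn hs, ← tan2 hk hn hs]
  have h1 := vv_lt_ww hk hn hs ha m
  have h2 := arct1 (h := h) hk hn hs m
  have h3 := arct2 (h := h) hk hn hs m
  exact Real.strictMonoOn_tan.monotoneOn ⟨h2, by linarith⟩ ⟨by linarith, h3⟩ (by linarith)

lemma le2 (ha : Adm k n ε h) (m : ℤ) : -xx (h (m + 1 - k)) (h m) (2 * (k - 1) * dl k n) ≤
    -xx (h (m + 1 - k)) (h (m + 1)) (2 * k * dl k n) := by
  rw [← tan3 hk hn hs ha, ← tan4 hk hn hs ha]
  have h1 := ww_lt_vv hk hn hs ha m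
  obtain ⟨h2, h3⟩ := angle_facts hk hn hs ha m
  exact Real.strictMonoOn_tan.monotoneOn ⟨h2, by linarith⟩ ⟨by linarith, h3⟩ (by linarith)

/-- the area -/
theorem area_eq' (ha : Adm k n ε h) : volume (U k n h) = ENNReal.ofReal
    (∑ m ∈ Finset.range (k * n), ((h m) ^ 2 / 2 * (xx (h m) (h (m + 1 - k)) (2 * (k - 1) * dl k n) -
        xx (h m) (h (m - k)) (2 * k * dl k n)) +
      (h (m + 1 - k)) ^ 2 / 2 * (-xx (h (m + 1 - k)) (h (m + 1)) (2 * k * dl k n) -
        -xx (h (m + 1 - k)) (h m) (2 * (k - 1) * dl k n)))) := by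
  have h0 : volume (U k n h) = volume (U k n h ∩ {0}ᶜ) := by
    refine measure_congr ?_
    have : (U k n h ∩ {0}ᶜ : Set ℂ) = U k n h \ {0} := rfl
    rw [this]
    exact (diff_null_ae_eq_self (by simp)).symm
  rw [h0, ← sector_full (vv k n h ((0 : ℕ) : ℤ)), ← vv_per hk hn hs ha,
    measure_total hk hn hs ha volume _ le_rfl]
  have h1 : ∀ m ∈ Finset.range (k * n), (volume (U k n h ∩ sector (vv k n h m) (ww k n h m)) +
        volume (U k n h ∩ sector (ww k n h m) (vv k n h (m + 1)))) = ENNReal.ofReal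
      ((h m) ^ 2 / 2 * (xx (h m) (h (m + 1 - k)) (2 * (k - 1) * dl k n) -
        xx (h m) (h (m - k)) (2 * k * dl k n)) +
      (h (m + 1 - k)) ^ 2 / 2 * (-xx (h (m + 1 - k)) (h (m + 1)) (2 * k * dl k n) -
        -xx (h (m + 1 - k)) (h m) (2 * (k - 1) * dl k n))) := by
    intro m _
    have l1 := le1 hk hn hs ha m
    have l2 := le2 hk hn hs ha m
    obtain ⟨g1, g2⟩ := angle_facts hk hn hs ha m
    rw [inter1 hk hn hs ha, inter2 hk hn hs ha,
      piece_volume (ha.pos hs m) (arct1 hk hn hs m) (vv_lt_ww hk hn hs ha m).le (arct2 hk hn hs m),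
      piece_volume (ha.pos hs _) g1 (ww_lt_vv hk hn hs ha m).le g2,
      tan1 hk hn hs, tan2 hk hn hs, tan3 hk hn hs ha, tan4 hk hn hs ha, ENNReal.ofReal_add]
    · exact mul_nonneg (by positivity) (by linarith)
    · exact mul_nonneg (by positivity) (by linarith)
  rw [Finset.sum_congr rfl h1, ← ENNReal.ofReal_sum_of_nonneg]
  · intro m _
    refine add_nonneg ?_ ?_
    · exact mul_nonneg (by positivity) (by linarith [le1 hk hn hs ha m])
    · exact mul_nonneg (by positivity) (by linarith [le2 hk hn hs ha m])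

theorem area_eq (ha : Adm k n ε h) : (volume (U k n h)).toReal =
    ∑ m ∈ Finset.range (k * n), ((h m) ^ 2 / 2 * (xx (h m) (h (m + 1 - k)) (2 * (k - 1) * dl k n) -
        xx (h m) (h (m - k)) (2 * k * dl k n)) +
      (h (m + 1 - k)) ^ 2 / 2 * (-xx (h (m + 1 - k)) (h (m + 1)) (2 * k * dl k n) -
        -xx (h (m + 1 - k)) (h m) (2 * (k - 1) * dl k n))) := by
  rw [area_eq' hk hn hs ha, ENNReal.toReal_ofReal]
  refine Finset.sum_nonneg fun m _ => add_nonneg ?_ ?_
  · exact mul_nonneg (by positivity) (by linarith [le1 hk hn hs ha m])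
  · exact mul_nonneg (by positivity) (by linarith [le2 hk hn hs ha m])

lemma zero_mem_interior (ha : Adm k n ε h) : (0 : ℂ) ∈ interior (U k n h) := by
  have h1 : (0 : ℂ) ∈ U k n h := by
    refine ⟨0, fun i => ?_⟩
    simpa using (ha.pos hs _).le
  have := smul_mem_interior hk hn hs ha h1 (s := 0) le_rfl one_pos
  simpa using this

theorem area_pos (ha : Adm k n ε h) : 0 < (volume (U k n h)).toReal := by
  refine ENNReal.toReal_pos ?_ ?_
  · exact (Measure.measure_pos_of_nonempty_interior volume ⟨0, zero_mem_interior hk hn hs ha⟩).ne'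
  · rw [area_eq' hk hn hs ha]; exact ENNReal.ofReal_ne_top

/-- the perimeter -/
theorem perim_eq (ha : Adm k n ε h) : (μH[1] (frontier (U k n h))).toReal =
    ∑ m ∈ Finset.range (k * n), (h m * (xx (h m) (h (m + 1 - k)) (2 * (k - 1) * dl k n) -
        xx (h m) (h (m - k)) (2 * k * dl k n)) +
      h (m + 1 - k) * (-xx (h (m + 1 - k)) (h (m + 1)) (2 * k * dl k n) -
        -xx (h (m + 1 - k)) (h m) (2 * (k - 1) * dl k n))) := by
  have h0 : frontier (U k n h) = frontier (U k n h) ∩ {0}ᶜ := by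
    rw [eq_comm, inter_eq_left]
    intro z hz hz0
    rw [mem_singleton_iff] at hz0
    subst hz0
    rw [(isClosed_U hk).frontier_eq] at hz
    exact hz.2 (zero_mem_interior hk hn hs ha)
  rw [h0, ← sector_full (vv k n h ((0 : ℕ) : ℤ)), ← vv_per hk hn hs ha,
    measure_total hk hn hs ha (μH[1]) _ le_rfl]
  have h1 : ∀ m ∈ Finset.range (k * n),
      (μH[1] (frontier (U k n h) ∩ sector (vv k n h m) (ww k n h m)) +
        μH[1] (frontier (U k n h) ∩ sector (ww k n h m) (vv k n h (m + 1)))) = ENNReal.ofReal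
      (h m * (xx (h m) (h (m + 1 - k)) (2 * (k - 1) * dl k n) -
        xx (h m) (h (m - k)) (2 * k * dl k n)) +
      h (m + 1 - k) * (-xx (h (m + 1 - k)) (h (m + 1)) (2 * k * dl k n) -
        -xx (h (m + 1 - k)) (h m) (2 * (k - 1) * dl k n))) := by
    intro m _
    have l1 := le1 hk hn hs ha m
    have l2 := le2 hk hn hs ha m
    obtain ⟨g1, g2⟩ := angle_facts hk hn hs ha m
    rw [inter3 hk hn hs ha, inter4 hk hn hs ha,
      piece_length (ha.pos hs m) (arct1 hk hn hs m) (vv_lt_ww hk hn hs ha m).le (arct2 hk hn hs m),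
      piece_length (ha.pos hs _) g1 (ww_lt_vv hk hn hs ha m).le g2,
      tan1 hk hn hs, tan2 hk hn hs, tan3 hk hn hs ha, tan4 hk hn hs ha, ENNReal.ofReal_add]
    · exact mul_nonneg (ha.pos hs m).le (by linarith)
    · exact mul_nonneg (ha.pos hs _).le (by linarith)
  rw [Finset.sum_congr rfl h1, ← ENNReal.ofReal_sum_of_nonneg, ENNReal.toReal_ofReal]
  · refine Finset.sum_nonneg fun m _ => add_nonneg ?_ ?_
    · exact mul_nonneg (ha.pos hs _).le (by linarith [le1 hk hn hs ha m])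
    · exact mul_nonneg (ha.pos hs _).le (by linarith [le2 hk hn hs ha m])
  · intro m _
    refine add_nonneg ?_ ?_
    · exact mul_nonneg (ha.pos hs _).le (by linarith [le1 hk hn hs ha m])
    · exact mul_nonneg (ha.pos hs _).le (by linarith [le2 hk hn hs ha m])

end

end Pool.Agent.R165.Poly
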